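import Pool.Agent.H902.Ray

set_option autoImplicit false

/-!
# The three statements, in the language of the library
-/

namespace Pool.Agent.H902

open MvPolynomial Pool.Agent.TH167.SHDefs Pool.Agent.X157.W
open Pool.Agent.H350R3 Pool.Agent.H350R3.GR Pool.Agent.H932R3
open Pool.Agent.R355.ConeAct (curveClasses curvCone dot refl nef_of_gen nef_carries Carries kap)

theorem zero_nf {L : List ℝ} {c : ℝ} (h : NB.Nf ℂ L.get c) : NB.Nf ℂ ((0 : ℝ) :: L).get c := by
  intro w d hd
  have e : ∑ i : Fin (L.length + 1), ((0 : ℝ) :: L).get i * (w i : ℝ) =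
      ∑ i : Fin L.length, L.get i * (w i.succ : ℝ) := by
    rw [Fin.sum_univ_succ]
    simp
  have hd' : c * d < ∑ i : Fin L.length, L.get i * (w i.succ : ℝ) := by
    rw [← e]
    exact hd
  obtain ⟨x, hx⟩ := h (fun i => w i.succ) d hd'
  exact ⟨(Fin.cons 0 x : Fin (L.length + 1) → Fin 2 → ℂ), fun f hf hfd =>
    hx f (fun i => hf i.succ) hfd⟩

/-- The class `c H - ∑ L_j E_{g j}`. -/
noncomputable def rayClass {n : ℕ} (L : List ℝ) (c : ℝ) (g : Fin L.length → Fin n) :
    ℝ × (Fin n → ℝ) := (c, fun i => ∑ j, if g j = i then L.get j else 0)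

theorem dot_ray {n : ℕ} (L : List ℝ) (c : ℝ) (g : Fin L.length → Fin n)
    (z : ℝ × (Fin n → ℝ)) : dot (rayClass L c g) z = c * z.1 - ∑ j, L.get j * z.2 (g j) := by
  classical
  unfold dot rayClass
  simp only
  congr 1
  rw [Finset.sum_congr rfl fun i _ => Finset.sum_mul _ _ _, Finset.sum_comm]
  refine Finset.sum_congr rfl fun j _ => ?_
  rw [Finset.sum_eq_single (g j)]
  · rw [if_pos rfl]
  · intro i _ hi
    rw [if_neg (Ne.symm hi), zero_mul]
  · intro h
    exact absurd (Finset.mem_univ _) h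

theorem ray_self {n : ℕ} {L : List ℝ} {c : ℝ} {g : Fin L.length → Fin n}
    (hg : Function.Injective g) (h : (L.map fun t => t ^ 2).sum = c ^ 2) :
    dot (rayClass L c g) (rayClass L c g) = 0 := by
  classical
  rw [dot_ray]
  have h1 : ∀ j, (rayClass L c g).2 (g j) = L.get j := by
    intro j
    unfold rayClass
    simp only
    rw [Finset.sum_eq_single j]
    · rw [if_pos rfl]
    · intro i _ hi
      rw [if_neg fun h => hi (hg h)]
    · intro h
      exact absurd (Finset.mem_univ _) h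
  have h2 : ∑ j, L.get j * (rayClass L c g).2 (g j) = (L.map fun t => t ^ 2).sum := by
    rw [Finset.sum_congr rfl fun j _ => by rw [h1 j]]
    rw [← List.sum_ofFn]
    congr 1
    conv_rhs => rw [← List.ofFn_get L, List.map_ofFn]
    congr 1
    funext j
    simp only [Function.comp_apply]
    ring
  rw [h2, h]
  show c * c - c ^ 2 = 0
  ring

/-- The second statement. -/
theorem curves {n : ℕ} {P : Fin n → Fin 2 → ℂ} (hP : Gen P) {G : MvPolynomial (Fin 3) ℂ} {d : ℕ}
    {w : Fin n → ℕ} (hG : Curve P G d w) :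
    (∀ (T : Finset (Fin n)) (p : Fin n), 9 ≤ T.card → p ∈ T →
      4 * (∑ i ∈ T, (w i : ℝ) - 3 * d) ≤ ((T.card : ℝ) - 9) * ((d : ℝ) - w p)) ∧
    (9 ≤ n → ∀ (p : Fin n) (F : ℝ × (Fin n → ℝ)), Carries (pl Finset.univ p 1 0) F →
      4 * kap ((d : ℝ), fun i => (w i : ℝ)) ≤
        ((n : ℝ) - 9) * dot F ((d : ℝ), fun i => (w i : ℝ))) := by
  classical
  have hv : ((d : ℝ), fun i => (w i : ℝ)) ∈ curveClasses P := Or.inl ⟨G, d, w, hG, rfl⟩
  refine ⟨fun T p hT hp => ?_, fun hn p F hF => ?_⟩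
  · have h1 := fib_sub hP hG hT hp
    have h2 := Finset.add_sum_erase T (fun i => (w i : ℝ)) hp
    linarith
  · have hT : 9 ≤ (Finset.univ : Finset (Fin n)).card := by
      rw [Finset.card_univ, Fintype.card_fin]
      exact hn
    have hn' : (9 : ℝ) ≤ n := by exact_mod_cast hn
    -- the class `(n - 9) F - 4 K`
    have key : ∀ D : ℝ × (Fin n → ℝ), Carries (pl Finset.univ p 1 0) D →
        ∃ D', Carries (pl Finset.univ p ((n : ℝ) - 9) 4) D' ∧
          ∀ v, dot D' v = ((n : ℝ) - 9) * dot D v - 4 * kap v := by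
      intro D hD
      unfold Carries at hD
      induction hD with
      | refl =>
        refine ⟨_, Relation.ReflTransGen.refl, fun v => ?_⟩
        rw [dot_pl, dot_pl]
        unfold kap
        ring
      | @tail D1 D2 _ h2 ih =>
        obtain ⟨i, hi, rfl⟩ := h2
        obtain ⟨D', h3, h4⟩ := ih
        refine ⟨refl i D', h3.tail ⟨i, hi, rfl⟩, fun v => ?_⟩
        have e1 := Pool.Agent.R355.ConeAct.dot_refl hi D' (refl i v)
        have e2 := Pool.Agent.R355.ConeAct.dot_refl hi D1 (refl i v)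
        rw [Pool.Agent.R355.ConeAct.refl_refl] at e1 e2
        rw [e1, e2, h4, Pool.Agent.R355.ConeAct.kap_refl hi]
    obtain ⟨D', h1, h2⟩ := key F hF
    have h3 := (nef_carries hP h1 (pl_nef hP hT (Finset.mem_univ p) (by
      show (0 : ℝ) ≤ (n : ℝ) - 9 + 3 * 4
      linarith) (by
      rw [dot_pl_self (Finset.mem_univ p), Finset.card_univ, Fintype.card_fin]
      have : (4 : ℝ) * (4 * ((n : ℝ) - 9) - ((n : ℝ) - 9) * 4) = 0 := by ring
      rw [this]))).1 _ (subset_closure (Submodule.subset_span hv))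
    rw [h2] at h3
    linarith

/-- The third statement. -/
theorem rays {n : ℕ} {f : ℕ → MvPolynomial (Fin n × Fin 2) ℂ}
    (hf' : ∀ P : Fin n → Fin 2 → ℂ,
      (∀ j, MvPolynomial.eval (fun q : Fin n × Fin 2 => P q.1 q.2) (f j) ≠ 0) →
      ∀ (d : ℕ) (w : Fin n → ℕ), (∃ P0 : Fin n → Fin 2 → ℂ, NoForm (ptJ P0 w) d) →
        NoForm (ptJ P w) d) {P : Fin n → Fin 2 → ℂ}
    (hP : ∀ j, MvPolynomial.eval (fun q : Fin n × Fin 2 => P q.1 q.2) (f j) ≠ 0) (hg' : Gen P)
    {L : List ℝ} {c : ℝ} (hL : ∀ t ∈ L, 0 ≤ t) (h3 : (L.map fun t => t ^ 2).sum = c ^ 2)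
    (hNf : NB.Nf ℂ L.get c)
    {g : Fin L.length → Fin n} (hg : Function.Injective g) {D : ℝ × (Fin n → ℝ)}
    (hD : Carries (rayClass L c g) D) : dot D D = 0 ∧ ∀ z ∈ curvCone P, 0 ≤ dot D z := by
  have h5 : ∀ z ∈ curvCone P, 0 ≤ dot (rayClass L c g) z := by
    intro z hz
    rw [dot_ray]
    exact sub_nonneg.2 (nef_of_nf hf' hP hL hNf hg z hz)
  have h6 := nef_carries hg' hD h5
  exact ⟨by rw [h6.2.1, ray_self hg h3], h6.1⟩

end Pool.Agent.H902
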