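import Pool.Agent.H902.Gap
import Pool.Graph.R_pool_sql_team_seeded_2aa45f1a.Q78.FO.Reduced

set_option autoImplicit false

/-!
# The strict inequality for a point of multiplicity at least two
-/

namespace Pool.Agent.H902

open MvPolynomial Pool.Agent.W609 Pool.Agent.W609.CR Pool.Agent.TH167 Pool.Agent.TH167.SH
  Pool.Agent.X157.W
open Pool.Agent.Q78.FO (cyc rename_pt mem_Vd' lift_Lw homog_dvd two_le curve_of_kill)
open Pool.Agent.Q78.GW (Lw Wl ld coeff_ld Wl_fin)
open Pool.Agent.H932R5 (Vd deh deh_inj deh_mem hI)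

theorem rename_pt' {K : Type} [Field K] {p : Fin 2 → K} {m : ℕ} {F : MvPolynomial (Fin 3) K}
    (hF : F ∈ (hI (K := K) (E := 1) p) ^ m) :
    rename cyc.symm F ∈ SHDefs.pt p ^ m := by
  have h1 := Ideal.mem_map_of_mem (rename (R := K) cyc.symm) hF
  rw [Ideal.map_pow] at h1
  refine Ideal.pow_right_mono ?_ m h1
  unfold SHDefs.pt hI
  rw [Ideal.map_span, Ideal.span_le]
  rintro _ ⟨_, ⟨j, rfl⟩, rfl⟩
  fin_cases j
  · refine Ideal.subset_span (Or.inl ?_)
    simp only [map_sub, map_mul, rename_X, rename_C]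
    rfl
  · refine Ideal.subset_span (Or.inr ?_)
    simp only [map_sub, map_mul, rename_X, rename_C, Set.mem_singleton_iff]
    rfl

theorem eval_smul_homog {F : MvPolynomial (Fin 3) ℂ} {d : ℕ} (hF : F.IsHomogeneous d) (c : ℂ)
    (x : Fin 3 → ℂ) : eval (c • x) F = c ^ d * eval x F := by
  rw [eval_eq', eval_eq', Finset.mul_sum]
  refine Finset.sum_congr rfl fun α hα => ?_
  have h1 : ∏ i, (c • x) i ^ α i = c ^ d * ∏ i, x i ^ α i := by
    simp only [Pi.smul_apply, smul_eq_mul, mul_pow, Finset.prod_mul_distrib]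
    congr 1
    rw [Finset.prod_pow_eq_pow_sum]
    congr 1
    have h2 := hF (mem_support_iff.1 hα)
    rw [← h2, Finsupp.weight_apply, Finsupp.sum_fintype _ _ (fun _ => by simp)]
    simp
  rw [h1]
  ring

/-- A point of the curve outside of finitely many vertical lines. -/
theorem exists_pt {s : ℕ} (P : Fin s → Fin 2 → ℂ) {G : MvPolynomial (Fin 3) ℂ} {e : ℕ}
    (hG : Irreducible G) (hGe : G.IsHomogeneous e) (he : 2 ≤ e) :
    ∃ Q : Fin 2 → ℂ, eval (aff Q) G = 0 ∧ ∀ j, Q 0 ≠ P j 0 := by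
  classical
  by_contra hcon
  push Not at hcon
  have hprime : Prime G := hG.prime
  obtain ⟨h, hh⟩ : ∃ h : MvPolynomial (Fin 3) ℂ,
      h = X 2 * ∏ j, (X 0 - C (P j 0) * X 2) := ⟨_, rfl⟩
  have hzero : ∀ x : Fin 3 → ℂ, eval x G = 0 → eval x h = 0 := by
    intro x hx
    rw [hh, map_mul, eval_X, map_prod]
    by_cases h2 : x 2 = 0
    · rw [h2, zero_mul]
    · have h3 : eval (aff ![x 0 / x 2, x 1 / x 2]) G = 0 := by
        have e1 : aff ![x 0 / x 2, x 1 / x 2] = (x 2)⁻¹ • x := by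
          funext i
          fin_cases i
          · simp [aff, div_eq_inv_mul]
          · simp [aff, div_eq_inv_mul]
          · simp [aff, h2]
        rw [e1, eval_smul_homog hGe, hx, mul_zero]
      obtain ⟨j, hj⟩ := hcon _ h3
      have h4 : x 0 - P j 0 * x 2 = 0 := by
        have h5 : x 0 / x 2 = P j 0 := hj
        rw [← h5]
        field_simp
        ring
      have h5 : ∏ j, eval x (X 0 - C (P j 0) * X 2 : MvPolynomial (Fin 3) ℂ) = 0 := by
        refine Finset.prod_eq_zero (Finset.mem_univ j) ?_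
        simp only [map_sub, map_mul, eval_X, eval_C]
        exact h4
      rw [h5, mul_zero]
  have h1 : h ∈ vanishingIdeal ℂ (zeroLocus ℂ (Ideal.span {G})) := by
    rw [mem_vanishingIdeal_iff]
    intro x hx
    rw [mem_zeroLocus_iff] at hx
    have h2 := hx G (Ideal.mem_span_singleton_self G)
    rw [aeval_eq_eval] at h2 ⊢
    exact hzero x h2
  rw [vanishingIdeal_zeroLocus_eq_radical] at h1
  obtain ⟨N, hN⟩ := h1
  have h2 : G ∣ h := hprime.dvd_of_dvd_pow (Ideal.mem_span_singleton.1 hN)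
  have hdeg : ∀ F : MvPolynomial (Fin 3) ℂ, F.IsHomogeneous 1 → F ≠ 0 → ¬ G ∣ F := by
    rintro F hF hF0 ⟨r, hr⟩
    have hr0 : r ≠ 0 := by
      rintro rfl
      exact hF0 (by rw [hr, mul_zero])
    have h3 := hF.totalDegree hF0
    rw [hr, totalDegree_mul_of_isDomain hG.ne_zero hr0, hGe.totalDegree hG.ne_zero] at h3
    omega
  rw [hh] at h2
  rcases hprime.dvd_or_dvd h2 with h3 | h3
  · exact hdeg _ (isHomogeneous_X _ _) (X_ne_zero _) h3
  · obtain ⟨j, -, hj⟩ := hprime.exists_mem_finset_dvd h3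
    refine hdeg _ ?_ ?_ hj
    · refine (isHomogeneous_X _ _).sub ?_
      have := (isHomogeneous_C (Fin 3) (P j 0)).mul (isHomogeneous_X ℂ (2 : Fin 3))
      simpa using this
    · intro h4
      have h5 := congrArg (eval (![1, 0, 0] : Fin 3 → ℂ)) h4
      simp at h5

theorem kss {s : ℕ} {P : Fin s → Fin 2 → ℂ} (hP : Gen P) {G : MvPolynomial (Fin 3) ℂ} {e : ℕ}
    {u : Fin s → ℕ} (hG : SHDefs.Curve P G e u) {k : Fin s} (hk : 2 ≤ u k) :
    ∑ j, u j ^ 2 + 1 ≤ e ^ 2 + u k := by
  classical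
  obtain ⟨g1, g2, g3⟩ := curve_iff.1 hG
  have hxu := Pool.Agent.R355.NegOrb.xu hP g1 g2 g3 (k := k) (by omega)
  have he : 2 ≤ e := by
    have h1 : u k ^ 2 ≤ ∑ j, u j ^ 2 :=
      Finset.single_le_sum (f := fun j => u j ^ 2) (fun _ _ => Nat.zero_le _) (Finset.mem_univ k)
    by_contra h2
    have h3 : e ≤ 1 := by omega
    have h4 : e ^ 2 ≤ 1 := by nlinarith
    nlinarith
  obtain ⟨G', hG'⟩ : ∃ G', G' = rename cyc G := ⟨_, rfl⟩
  have hinj : Function.Injective (rename (R := ℂ) cyc) := rename_injective _ cyc.injective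
  have hinj' : Function.Injective (rename (R := ℂ) cyc.symm) :=
    rename_injective _ cyc.symm.injective
  have hback : ∀ F : MvPolynomial (Fin 3) ℂ, rename cyc.symm (rename cyc F) = F := by
    intro F
    rw [rename_rename]
    have e1 : (cyc.symm ∘ cyc : Fin 3 → Fin 3) = id := by
      funext j
      simp
    rw [e1, rename_id_apply]
  have hG'h : G'.IsHomogeneous e := by
    rw [hG']
    exact hG.homogeneous.rename_isHomogeneous
  have hG'0 : G' ≠ 0 := by
    rw [hG']
    exact fun h => hG.irreducible.ne_zero (hinj (h.trans (map_zero _).symm))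
  have hG'V : G' ∈ Vd (E := 1) e u P := by
    unfold Vd
    rw [Submodule.mem_inf, mem_homogeneousSubmodule, Submodule.restrictScalars_mem,
      Ideal.mem_iInf]
    refine ⟨hG'h, fun i => ?_⟩
    rw [hG']
    exact rename_pt (hG.mult i).1
  have hLw : deh ℂ 1 G' ∈ Lw e P u := (mem_Vd'.1 hG'V).2
  have hne : Lw e P u ≠ ⊥ := by
    intro h
    rw [h, Submodule.mem_bot] at hLw
    exact hG'0 (deh_inj hG'h hLw)
  have hnk : ¬ ∃ v : Fin (1 + 1) → ℂ, (∃ a, v a ≠ 0) ∧
      ∀ h ∈ Wl e P u k, ∑ a, C (v a) * pderiv a h = 0 := by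
    rintro ⟨v, hv, hkill⟩
    obtain ⟨g, hg0, hgk, hdvd⟩ := curve_of_kill hP (by omega : 1 ≤ u k) hne hv hkill
    obtain ⟨H, hH, hHg, hH0, hHG⟩ := homog_dvd hG'h hG'0 (hdvd _ hLw) hg0
    have h1 : H * H ∣ G' := by
      rw [← sq]
      exact (pow_dvd_pow H hk).trans hHG
    have h2 : rename cyc.symm H * rename cyc.symm H ∣ G := by
      have h3 := map_dvd (rename (R := ℂ) cyc.symm) h1
      rwa [hG', hback, map_mul] at h3
    have h3 := hG.irreducible.squarefree _ h2
    have h4 : H.totalDegree = 0 := by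
      have h5 : (rename cyc.symm H).totalDegree = g.totalDegree := by
        refine IsHomogeneous.totalDegree hH.rename_isHomogeneous ?_
        exact fun h => hH0 (hinj' (h.trans (map_zero _).symm))
      rw [MvPolynomial.isUnit_iff_totalDegree_of_isReduced] at h3
      rw [hH.totalDegree hH0, ← h5, h3.2]
    have h5 : g.totalDegree = 0 := by rw [← hH.totalDegree hH0, h4]
    rw [totalDegree_eq_zero_iff_eq_C] at h5
    rw [h5, eval_C] at hgk
    rw [hgk, C_0] at h5
    exact hg0 h5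
  have h2 := two_le hP hk hne hnk
  obtain ⟨u', hu'⟩ : ∃ u', u' = Function.update u k (u k - 1) := ⟨_, rfl⟩
  rw [← hu'] at h2
  have hu'k : u' k = u k - 1 := by rw [hu', Function.update_self]
  -- two independent leading forms
  have hWb : Wl e P u' k ≠ ⊥ := by
    intro h
    rw [h, finrank_bot] at h2
    omega
  obtain ⟨p, hp, hp0⟩ := Submodule.exists_mem_ne_zero_of_ne_bot hWb
  have hq : ∃ q ∈ Wl e P u' k, ∀ c : ℂ, c • p ≠ q := by
    by_contra hcon
    push Not at hcon
    have h3 : Module.finrank ℂ ↥(Wl e P u' k) ≤ 1 := by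
      refine finrank_le_one (⟨p, hp⟩ : ↥(Wl e P u' k)) fun w => ?_
      obtain ⟨c, hc⟩ := hcon w.1 w.2
      exact ⟨c, Subtype.ext hc⟩
    omega
  obtain ⟨q, hq, hqp⟩ := hq
  obtain ⟨f1, hf1, rfl⟩ := hp
  obtain ⟨f2, hf2, rfl⟩ := hq
  obtain ⟨R1, hR1, hR1f⟩ := lift_Lw hf1
  obtain ⟨R2, hR2, hR2f⟩ := lift_Lw hf2
  obtain ⟨Q, hQ, hQP⟩ := exists_pt P g1 g2 he
  obtain ⟨x1, hx1⟩ : ∃ x1, x1 = eval (aff Q) (rename cyc.symm R1) := ⟨_, rfl⟩
  obtain ⟨x2, hx2⟩ : ∃ x2, x2 = eval (aff Q) (rename cyc.symm R2) := ⟨_, rfl⟩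
  obtain ⟨a, b, hab, habx⟩ : ∃ a b : ℂ, (a ≠ 0 ∨ b ≠ 0) ∧ a * x1 + b * x2 = 0 := by
    by_cases h : x2 = 0
    · by_cases h' : x1 = 0
      · exact ⟨1, 0, Or.inl one_ne_zero, by rw [h, h']; ring⟩
      · exact ⟨x2, -x1, Or.inr (neg_ne_zero.2 h'), by ring⟩
    · exact ⟨x2, -x1, Or.inl h, by ring⟩
  obtain ⟨R, hR⟩ : ∃ R, R = a • R1 + b • R2 := ⟨_, rfl⟩
  have hRV : R ∈ Vd (E := 1) e u' P := by
    rw [hR]
    exact Submodule.add_mem _ (Submodule.smul_mem _ _ hR1) (Submodule.smul_mem _ _ hR2)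
  have hld : ld (P k) (u' k) (deh ℂ 1 R) ≠ 0 := by
    rw [hR, map_add, map_smul, map_smul, hR1f, hR2f, map_add, map_smul, map_smul]
    intro h
    rcases hab with ha | hb
    · by_cases hb : b = 0
      · rw [hb, zero_smul, add_zero] at h
        rcases smul_eq_zero.1 h with h | h
        · exact ha h
        · exact hp0 h
      · refine hqp (-(b⁻¹ * a)) ?_
        have h3 : b • (ld (P k) (u' k) f2) = -(a • ld (P k) (u' k) f1) :=
          eq_neg_of_add_eq_zero_right h
        have h4 := congrArg (fun z => b⁻¹ • z) h3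
        simp only [smul_smul, inv_mul_cancel₀ hb, one_smul, smul_neg] at h4
        rw [h4, neg_smul]
    · refine hqp (-(b⁻¹ * a)) ?_
      have h3 : b • (ld (P k) (u' k) f2) = -(a • ld (P k) (u' k) f1) :=
        eq_neg_of_add_eq_zero_right h
      have h4 := congrArg (fun z => b⁻¹ • z) h3
      simp only [smul_smul, inv_mul_cancel₀ hb, one_smul, smul_neg] at h4
      rw [h4, neg_smul]
  obtain ⟨F, hF⟩ : ∃ F, F = rename cyc.symm R := ⟨_, rfl⟩
  have hRh : R.IsHomogeneous e := (mem_Vd'.1 hRV).1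
  have hR0 : R ≠ 0 := by
    rintro h
    rw [h, map_zero, map_zero] at hld
    exact hld rfl
  have hFh : F.IsHomogeneous e := by
    rw [hF]
    exact hRh.rename_isHomogeneous
  have hF0 : F ≠ 0 := by
    rw [hF]
    exact fun h => hR0 (hinj' (h.trans (map_zero _).symm))
  have hFvan : ∀ j, Van (aff (P j)) (u' j) F := by
    intro j
    refine (t_link ℂ (P j) (u' j) F e hFh).2 ?_
    rw [hF]
    refine rename_pt' ?_
    have h3 := hRV
    unfold Vd at h3
    rw [Submodule.mem_inf, Submodule.restrictScalars_mem, Ideal.mem_iInf] at h3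
    exact h3.2 j
  have hFQ : eval (aff Q) F = 0 := by
    rw [hF, hR, map_add, map_smul, map_smul, map_add]
    have e1 : eval (aff Q) (a • rename cyc.symm R1) = a * x1 := by
      rw [MvPolynomial.smul_eval, hx1]
    have e2 : eval (aff Q) (b • rename cyc.symm R2) = b * x2 := by
      rw [MvPolynomial.smul_eval, hx2]
    rw [e1, e2]
    exact habx
  have hnd : ¬ G ∣ F := by
    rintro ⟨r, hr⟩
    have hr0 : r ≠ 0 := by
      rintro rfl
      exact hF0 (by rw [hr, mul_zero])
    have h3 : r.totalDegree = 0 := by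
      have t1 := hFh.totalDegree hF0
      have t2 := g2.totalDegree g1.ne_zero
      rw [hr, totalDegree_mul_of_isDomain g1.ne_zero hr0, t2] at t1
      omega
    obtain ⟨c, hc⟩ : ∃ c : ℂ, r = C c := ⟨coeff 0 r, totalDegree_eq_zero_iff_eq_C.1 h3⟩
    have h4 : R = c • G' := by
      apply hinj'
      rw [← hF, hr, hc, map_smul, hG', hback, mul_comm, MvPolynomial.smul_eq_C_mul]
    apply hld
    rw [h4, map_smul, map_smul]
    have h5 : ld (P k) (u' k) (deh ℂ 1 G') = 0 := by
      ext α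
      rw [coeff_ld, coeff_zero]
      split_ifs with h6
      · refine hLw.2 k α ?_
        rw [h6, hu'k]
        omega
      · rfl
    rw [h5, smul_zero]
  -- Bezout with the additional point
  have hPi : Function.Injective (Fin.cons Q P : Fin (s + 1) → Fin 2 → ℂ) := by
    rw [Fin.cons_injective_iff]
    refine ⟨?_, inj_of_alg hP⟩
    rintro ⟨j, hj⟩
    exact hQP j (by rw [hj])
  have hb := bez hPi (u := Fin.cons 1 u) (w := Fin.cons 1 u') g1 g2 (fun j => by
      refine Fin.cases ?_ (fun j => ?_) j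
      · simp only [Fin.cons_zero]
        unfold Van
        rw [pow_one]
        exact hQ
      · simp only [Fin.cons_succ]
        exact (g3 j).1) hF0 hFh (fun j => by
      refine Fin.cases ?_ (fun j => ?_) j
      · simp only [Fin.cons_zero]
        unfold Van
        rw [pow_one]
        exact hFQ
      · simp only [Fin.cons_succ]
        exact hFvan j) hnd
  rw [Fin.sum_univ_succ] at hb
  simp only [Fin.cons_zero, Fin.cons_succ, mul_one] at hb
  have hs : ∑ j, u j ^ 2 = ∑ j, u j * u' j + u k := by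
    have h3 : ∑ j, u j ^ 2 = ∑ j, (u j * u' j + if j = k then u k else 0) := by
      refine Finset.sum_congr rfl fun j _ => ?_
      by_cases hj : j = k
      · subst hj
        rw [hu'k, if_pos rfl]
        obtain ⟨t, ht⟩ : ∃ t, u j = t + 1 := ⟨u j - 1, by omega⟩
        rw [ht]
        simp only [Nat.add_sub_cancel]
        ring
      · rw [hu', Function.update_of_ne hj, if_neg hj]
        ring
    rw [h3, Finset.sum_add_distrib, Finset.sum_ite_eq' Finset.univ k]
    simp
  rw [hs]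
  nlinarith

end Pool.Agent.H902
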