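import Pool.Agent.H902.Sub
import Pool.Agent.H902.Kss
import Pool.Graph.R_pool_sql_team_seeded_c8625f6e.K4H28.TC.Facts

set_option autoImplicit false

/-!
# Irreducible curves and the pencil of lines through one of the points
-/

namespace Pool.Agent.H902

open MvPolynomial Pool.Agent.W609 Pool.Agent.W609.CR Pool.Agent.TH167 Pool.Agent.TH167.SHDefs
  Pool.Agent.TH167.SH Pool.Agent.X157.W
open Pool.Agent.R355.ConeAct (curveClasses curvCone dot refl)

/-- The class of a plane curve. -/
noncomputable def cl {n : ℕ} (d : ℕ) (w : Fin n → ℕ) : ℝ × (Fin n → ℝ) :=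
  ((d : ℝ), fun i => (w i : ℝ))

theorem curve_pos {n : ℕ} {P : Fin n → Fin 2 → ℂ} {G : MvPolynomial (Fin 3) ℂ} {d : ℕ}
    {w : Fin n → ℕ} (hG : Curve P G d w) : 0 < d := by
  rcases Nat.eq_zero_or_pos d with rfl | hd
  · exfalso
    have h1 : G.totalDegree = 0 := by
      have := hG.homogeneous.totalDegree_le
      omega
    rw [totalDegree_eq_zero_iff_eq_C] at h1
    have hirr := hG.irreducible
    by_cases h2 : coeff 0 G = 0
    · rw [h2, C_0] at h1
      exact hirr.ne_zero h1
    · apply hirr.not_isUnit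
      rw [h1]
      exact (isUnit_iff_ne_zero.2 h2).map C
  · exact hd

/-- **The inequality for all the points.** -/
theorem fib_all {r : ℕ} {P : Fin (r + 9) → Fin 2 → ℂ} (hP : Gen P) {G : MvPolynomial (Fin 3) ℂ}
    {d : ℕ} {w : Fin (r + 9) → ℕ} (hG : Curve P G d w) (p : Fin (r + 9)) :
    4 * ∑ i ∈ Finset.univ.erase p, (w i : ℝ) + ((r : ℝ) + 4) * w p ≤ ((r : ℝ) + 12) * d := by
  classical
  have hd := curve_pos hG
  obtain ⟨g1, g2, g3⟩ := curve_iff.1 hG
  obtain ⟨M, hM⟩ : ∃ M : Finset (Fin (r + 9)), M = Finset.univ.erase p := ⟨_, rfl⟩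
  have hpM : p ∉ M := by
    rw [hM]
    exact Finset.notMem_erase p _
  have hMc : M.card = r + 8 := by
    rw [hM, Finset.card_erase_of_mem (Finset.mem_univ _), Finset.card_univ, Fintype.card_fin]
    omega
  have hMcR : (M.card : ℝ) = (r : ℝ) + 8 := by
    rw [hMc]
    push_cast
    ring
  have hsum : ∀ f : Fin (r + 9) → ℝ, ∑ i, f i = f p + ∑ i ∈ M, f i := by
    intro f
    rw [hM, Finset.add_sum_erase _ _ (Finset.mem_univ p)]
  have hr0 : (0 : ℝ) ≤ r := Nat.cast_nonneg r
  have hd' : (1 : ℝ) ≤ d := by exact_mod_cast hd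
  have hw0 : ∀ i, (0 : ℝ) ≤ w i := fun i => Nat.cast_nonneg _
  rw [← hM]
  obtain ⟨S, hS⟩ : ∃ S : ℝ, S = ∑ i ∈ M, (w i : ℝ) := ⟨_, rfl⟩
  obtain ⟨Q, hQ⟩ : ∃ Q : ℝ, Q = ∑ i ∈ M, (w i : ℝ) ^ 2 := ⟨_, rfl⟩
  have hS0 : 0 ≤ S := by
    rw [hS]
    exact Finset.sum_nonneg fun i _ => hw0 i
  have hQ0 : 0 ≤ Q := by
    rw [hQ]
    exact Finset.sum_nonneg fun i _ => sq_nonneg _
  have hCS : S ^ 2 ≤ ((r : ℝ) + 8) * Q := by
    have h := sq_sum_le_card_mul_sum_sq (s := M) (f := fun i => (w i : ℝ))
    rw [hMcR] at h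
    rw [hS, hQ]
    exact h
  have hdot : dot (cl d w) (cl d w) = (d : ℝ) ^ 2 - (w p : ℝ) ^ 2 - Q := by
    unfold dot cl
    simp only
    rw [hsum fun i => (w i : ℝ) * (w i : ℝ), hQ]
    have : ∑ i ∈ M, (w i : ℝ) * (w i : ℝ) = ∑ i ∈ M, (w i : ℝ) ^ 2 :=
      Finset.sum_congr rfl fun i _ => by ring
    rw [this]
    ring
  rw [← hS]
  rcases le_or_gt 0 (dot (cl d w) (cl d w)) with hpos | hneg
  · -- nonnegative self-intersection
    rw [hdot] at hpos
    have h1 : (4 * S + ((r : ℝ) + 4) * w p) ^ 2 ≤ (((r : ℝ) + 12) * d) ^ 2 := by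
      have h2 : (4 * S + ((r : ℝ) + 4) * w p) ^ 2 ≤
          (16 * ((r : ℝ) + 8) + ((r : ℝ) + 4) ^ 2) * (Q + (w p : ℝ) ^ 2) := by
        have h3 : 2 * S * (w p : ℝ) * (4 * ((r : ℝ) + 4)) ≤
            16 * ((r : ℝ) + 8) * (w p : ℝ) ^ 2 + ((r : ℝ) + 4) ^ 2 * Q := by
          have h4 : 0 ≤ (4 * ((r : ℝ) + 8) * (w p : ℝ) - ((r : ℝ) + 4) * S) ^ 2 := sq_nonneg _
          have h5 : 0 < (r : ℝ) + 8 := by linarith
          have h6 : ((r : ℝ) + 8) * (2 * S * (w p : ℝ) * (4 * ((r : ℝ) + 4))) ≤
              ((r : ℝ) + 8) * (16 * ((r : ℝ) + 8) * (w p : ℝ) ^ 2 + ((r : ℝ) + 4) ^ 2 * Q) := by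
            nlinarith [mul_le_mul_of_nonneg_left hCS (sq_nonneg ((r : ℝ) + 4))]
          exact le_of_mul_le_mul_left h6 h5
        nlinarith
      have h3 : (16 * ((r : ℝ) + 8) + ((r : ℝ) + 4) ^ 2) = ((r : ℝ) + 12) ^ 2 := by ring
      rw [h3] at h2
      have h4 : ((r : ℝ) + 12) ^ 2 * (Q + (w p : ℝ) ^ 2) ≤ ((r : ℝ) + 12) ^ 2 * (d : ℝ) ^ 2 :=
        mul_le_mul_of_nonneg_left (by linarith) (sq_nonneg _)
      calc _ ≤ _ := h2
        _ ≤ _ := h4
        _ = _ := by ring
    exact (abs_le_of_sq_le_sq' h1 (by positivity)).2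
  · have hv : cl d w ∈ curveClasses P := Or.inl ⟨G, d, w, hG, rfl⟩
    have hg : Gap (cl d w) := gap_class hP hv hneg
    have hx := gapD hg hneg hpM (by omega : 4 ≤ M.card)
    have hxu : ∀ i, 1 ≤ w i → (w p : ℝ) ^ 2 + Q ≤ (d : ℝ) ^ 2 + w i := by
      intro i hi
      have h1 := Pool.Agent.R355.NegOrb.xu hP g1 g2 g3 hi
      have h2 : ((∑ j, w j ^ 2 : ℕ) : ℝ) ≤ ((d ^ 2 + w i : ℕ) : ℝ) := by exact_mod_cast h1
      push_cast at h2
      rw [hsum fun j => (w j : ℝ) ^ 2, ← hQ] at h2
      exact h2
    have hwd : (w p : ℝ) ≤ d := by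
      rcases Nat.eq_zero_or_pos (w p) with h0 | h0
      · rw [h0]
        push_cast
        linarith
      · have h1 := hxu p h0
        by_contra hcon
        push Not at hcon
        have h2 : d + 1 ≤ w p := by
          have : d < w p := by exact_mod_cast hcon
          omega
        have h3 : (d : ℝ) + 1 ≤ w p := by exact_mod_cast h2
        nlinarith
    rcases hx with hx | hx
    · -- the classes orthogonal to the roots
      have hx' : ∀ i ∈ M, 2 * (w i : ℝ) = d - w p := hx
      obtain ⟨i0, hi0⟩ : ∃ i0, i0 ∈ M := by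
        have : 0 < M.card := by omega
        exact Finset.card_pos.1 this
      obtain ⟨y, hy⟩ : ∃ y : ℕ, y = w i0 := ⟨_, rfl⟩
      have hwy : ∀ i ∈ M, w i = y := by
        intro i hi
        have h1 := hx' i hi
        have h2 := hx' i0 hi0
        have h3 : (w i : ℝ) = w i0 := by linarith
        rw [hy]
        exact_mod_cast h3
      have h2y : 2 * (y : ℝ) = d - w p := by
        rw [hy]
        exact hx' i0 hi0
      have hSy : S = ((r : ℝ) + 8) * y := by
        rw [hS, Finset.sum_congr rfl fun i hi => by rw [hwy i hi], Finset.sum_const, nsmul_eq_mul,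
          hMcR]
      have hQy : Q = ((r : ℝ) + 8) * (y : ℝ) ^ 2 := by
        rw [hQ, Finset.sum_congr rfl fun i hi => by rw [hwy i hi], Finset.sum_const, nsmul_eq_mul,
          hMcR]
      have hwp : (w p : ℝ) = d - 2 * y := by linarith
      have hdot2 : dot (cl d w) (cl d w) = (y : ℝ) * (4 * d - ((r : ℝ) + 12) * y) := by
        rw [hdot, hQy, hwp]
        ring
      by_contra hcon
      push Not at hcon
      rw [hSy, hwp] at hcon
      have hp : 4 * (d : ℝ) < ((r : ℝ) + 12) * y := by nlinarith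
      have hpI : 4 * d + 1 ≤ (r + 12) * y := by
        have : 4 * d < (r + 12) * y := by exact_mod_cast hp
        omega
      have hpR : 4 * (d : ℝ) + 1 ≤ ((r : ℝ) + 12) * y := by exact_mod_cast hpI
      have hy1 : 1 ≤ y := by
        rcases Nat.eq_zero_or_pos y with h0 | h0
        · rw [h0] at hpI
          omega
        · exact h0
      have hyR : (1 : ℝ) ≤ y := by exact_mod_cast hy1
      rcases Nat.lt_or_ge y 2 with hy2 | hy2
      · -- simple points
        have hy1' : y = 1 := by omega
        have hneg' : ip d w d w < 0 := by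
          have e1 : dot (cl d w) (cl d w) = ((ip d w d w : ℤ) : ℝ) := by
            unfold dot ip cl
            push_cast
            rfl
          rw [e1] at hneg
          exact_mod_cast hneg
        have hne : ¬ (ip d w d w = -1 ∧ kk d w = 1) := by
          rintro ⟨-, h2⟩
          have h3 : ((kk d w : ℤ) : ℝ) = 1 := by rw [h2]; norm_num
          unfold kk at h3
          push_cast at h3
          rw [hsum fun i => (w i : ℝ), ← hS, hSy, hwp, hy1'] at h3
          push_cast at h3
          have h4 : (r + 12) * y ≤ 4 * d + 1 := by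
            -- from Xu's inequality
            have h5 := hxu i0 (by rw [← hy]; exact hy1)
            rw [hQy, hwp, ← hy, hy1'] at h5
            push_cast at h5
            rw [hy1']
            have h6 : ((r : ℝ) + 12) ≤ 4 * d + 1 := by nlinarith
            have h7 : r + 12 ≤ 4 * d + 1 := by exact_mod_cast h6
            omega
          have h5 : (r : ℝ) + 12 ≤ 4 * d + 1 := by
            rw [hy1', mul_one] at h4
            exact_mod_cast h4
          rw [hy1'] at hpR
          push_cast at hpR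
          linarith
        have hI : Pool.Agent.R355.NegOrb.Irr P d w := ⟨⟨G, g1, g2, g3⟩, hne⟩
        have h10 := Pool.Agent.K4H28.TC.ten (r := r + 5) hP hI hneg'
        have hsub : (Finset.univ.filter fun j => 3 < w j) ⊆ {p} := by
          intro j hj
          rw [Finset.mem_filter] at hj
          rw [Finset.mem_singleton]
          by_contra hjp
          have hjM : j ∈ M := by
            rw [hM]
            exact Finset.mem_erase.2 ⟨hjp, Finset.mem_univ _⟩
          have h1 := hwy j hjM
          omega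
        have h11 := Finset.card_le_card hsub
        rw [Finset.card_singleton] at h11
        exact absurd (h10.trans h11) (by norm_num)
      · have hk := kss hP hG (k := i0) (by rw [← hy]; exact hy2)
        have hk2 : ((∑ j, w j ^ 2 + 1 : ℕ) : ℝ) ≤ ((d ^ 2 + w i0 : ℕ) : ℝ) := by exact_mod_cast hk
        push_cast at hk2
        rw [hsum fun j => (w j : ℝ) ^ 2, ← hQ, ← hy] at hk2
        rw [hdot] at hdot2
        nlinarith
    · -- the others
      have hx' : 4 * (-dot (cl d w) (cl d w)) ≤ ∑ i ∈ M, (2 * (w i : ℝ) - ((d : ℝ) - w p)) ^ 2 := hx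
      have e : ∑ i ∈ M, (2 * (w i : ℝ) - ((d : ℝ) - w p)) ^ 2 =
          4 * Q - 4 * ((d : ℝ) - w p) * S + ((r : ℝ) + 8) * ((d : ℝ) - w p) ^ 2 := by
        have h1 : ∀ i ∈ M, (2 * (w i : ℝ) - ((d : ℝ) - w p)) ^ 2 =
            4 * (w i : ℝ) ^ 2 - 4 * ((d : ℝ) - w p) * (w i : ℝ) + ((d : ℝ) - w p) ^ 2 :=
          fun i _ => by ring
        rw [Finset.sum_congr rfl h1, Finset.sum_add_distrib, Finset.sum_sub_distrib,
          ← Finset.mul_sum, ← Finset.mul_sum, ← hQ, ← hS, Finset.sum_const, nsmul_eq_mul, hMcR]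
      rw [e, hdot] at hx'
      have hmain : 0 ≤ ((d : ℝ) - w p) * (((r : ℝ) + 12) * d - (4 * S + ((r : ℝ) + 4) * w p)) := by
        nlinarith
      rcases eq_or_lt_of_le hwd with heq | hlt
      · -- a line through the point
        have hS1 : S ≤ 1 := by
          by_cases hz : ∃ i ∈ M, 1 ≤ w i
          · obtain ⟨i, hi, hi1⟩ := hz
            have h1 := hxu i hi1
            rw [heq] at h1
            have h2 : Q ≤ w i := by linarith
            have h3 : (w i : ℝ) ^ 2 ≤ Q := by
              rw [hQ]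
              exact Finset.single_le_sum (f := fun j => (w j : ℝ) ^ 2) (fun j _ => sq_nonneg _) hi
            have h4 : (1 : ℝ) ≤ w i := by exact_mod_cast hi1
            have h5 : (w i : ℝ) = 1 := by nlinarith
            have h6 : S ≤ Q := by
              rw [hS, hQ]
              refine Finset.sum_le_sum fun j _ => ?_
              rcases Nat.eq_zero_or_pos (w j) with h0 | h0
              · rw [h0]
                norm_num
              · have : (1 : ℝ) ≤ w j := by exact_mod_cast h0
                nlinarith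
            linarith
          · push Not at hz
            have : S = 0 := by
              rw [hS]
              refine Finset.sum_eq_zero fun i hi => ?_
              have := hz i hi
              have h0 : w i = 0 := by omega
              rw [h0]
              norm_num
            linarith
        rw [heq]
        nlinarith
      · have h1 : 0 < (d : ℝ) - w p := by linarith
        have h2 := nonneg_of_mul_nonneg_right hmain h1
        linarith

end Pool.Agent.H902
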