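import Pool.Agent.H902.Gap

set_option autoImplicit false

/-!
# Frames of roots: the norms of the components in `E_8`, `E_7`, `E_6`, `D_m`
-/

namespace Pool.Agent.H902

theorem sum_ge_card {N : ℕ} {k : ℝ} {x : Fin N → ℝ} (hk : 0 ≤ k) (S : Finset (Fin N)) {t : ℕ}
    (ht : t ≤ S.card) (h : ∀ i ∈ S, k ≤ x i ^ 2) : (t : ℝ) * k ≤ ∑ i, x i ^ 2 := by
  calc (t : ℝ) * k ≤ (S.card : ℝ) * k := by
        have : (t : ℝ) ≤ S.card := by exact_mod_cast ht
        exact mul_le_mul_of_nonneg_right this hk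
    _ = ∑ i ∈ S, k := by rw [Finset.sum_const, nsmul_eq_mul]
    _ ≤ ∑ i ∈ S, x i ^ 2 := Finset.sum_le_sum h
    _ ≤ ∑ i, x i ^ 2 := Finset.sum_le_sum_of_subset_of_nonneg (Finset.subset_univ S)
        fun i _ _ => sq_nonneg _

/-- The frame lemma. -/
theorem frame {N : ℕ} {k : ℝ} (hk : 0 < k) (words : List (Fin 4 → Fin N)) (t : ℕ) (ht : t ≤ 3)
    (hinj : ∀ w ∈ words, Function.Injective w)
    (hc : ∀ (i : Fin N) (S : Finset (Fin N)), i ∉ S → S.card < t →
      ∃ w ∈ words, (∃ a, w a = i) ∧ ∀ m ∈ S, ∀ a, w a ≠ m)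
    (x : Fin N → ℝ) (hx : ∀ i, Gp k (x i))
    (hz : ∀ w ∈ words, ∃ (z : ℝ) (s : Fin 4 → ℝ), (∀ a, s a = 1 ∨ s a = -1) ∧
      2 * z = ∑ a, s a * x (w a) ∧ Gp k z) :
    (∀ i, x i = 0) ∨ ((t : ℝ) + 1) * k ≤ ∑ i, x i ^ 2 := by
  classical
  by_cases h0 : ∀ i, x i = 0
  · exact Or.inl h0
  right
  push Not at h0
  obtain ⟨i, hi⟩ := h0
  obtain ⟨S, hS⟩ : ∃ S : Finset (Fin N), S = Finset.univ.filter fun j => x j ≠ 0 := ⟨_, rfl⟩
  have hmem : ∀ j, j ∈ S ↔ x j ≠ 0 := fun j => by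
    rw [hS, Finset.mem_filter]
    exact ⟨fun h => h.2, fun h => ⟨Finset.mem_univ _, h⟩⟩
  by_cases hcard : t + 1 ≤ S.card
  · have h1 := sum_ge_card hk.le S hcard (x := x) fun j hj => by
      rcases hx j with h2 | h2
      · exact absurd h2 ((hmem j).1 hj)
      · exact h2
    push_cast at h1
    exact h1
  · have hiS : i ∈ S := (hmem i).2 hi
    have h2 : (S.erase i).card < t := by
      rw [Finset.card_erase_of_mem hiS]
      have : 0 < S.card := Finset.card_pos.2 ⟨i, hiS⟩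
      omega
    obtain ⟨w, hw, ⟨a, ha⟩, hm⟩ := hc i (S.erase i) (Finset.notMem_erase i S) h2
    obtain ⟨z, s, hs, h3, h4⟩ := hz w hw
    have h5 : ∑ a, s a * x (w a) = s a * x i := by
      rw [Finset.sum_eq_single a]
      · rw [ha]
      · intro b _ hb
        have h6 : w b ≠ i := by
          intro h7
          exact hb (hinj w hw (h7.trans ha.symm))
        have h8 : x (w b) = 0 := by
          by_contra h9
          exact hm (w b) (Finset.mem_erase.2 ⟨h6, (hmem _).2 h9⟩) b rfl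
        rw [h8, mul_zero]
      · intro h
        exact absurd (Finset.mem_univ a) h
    rw [h5] at h3
    have h6 : 4 * z ^ 2 = x i ^ 2 := by
      have : (2 * z) ^ 2 = (s a * x i) ^ 2 := by rw [h3]
      rcases hs a with h | h <;> rw [h] at this <;> linarith
    have h7 : z ≠ 0 := by
      intro h8
      rw [h8] at h6
      have : x i ^ 2 = 0 := by linarith
      exact hi (by simpa using this)
    have h8 : k ≤ z ^ 2 := by
      rcases h4 with h4 | h4
      · exact absurd h4 h7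
      · exact h4
    have h9 : x i ^ 2 ≤ ∑ j, x j ^ 2 :=
      Finset.single_le_sum (f := fun j => x j ^ 2) (fun j _ => sq_nonneg _) (Finset.mem_univ i)
    have h10 : (t : ℝ) ≤ 3 := by exact_mod_cast ht
    nlinarith

/-! ## `E_8` -/

def words8 : List (Fin 4 → Fin 8) :=
  [![0, 1, 4, 5], ![0, 2, 4, 6], ![0, 3, 4, 7], ![1, 2, 5, 6], ![1, 3, 5, 7], ![2, 3, 6, 7],
    ![0, 1, 2, 7], ![0, 1, 3, 6], ![0, 2, 3, 5], ![1, 2, 3, 4],
    ![4, 5, 6, 3], ![4, 5, 7, 2], ![4, 6, 7, 1], ![5, 6, 7, 0]]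

/-- `i` is one of the values. -/
def has {N : ℕ} (w : Fin 4 → Fin N) (i : Fin N) : Bool := w 0 == i || w 1 == i || w 2 == i || w 3 == i

theorem has_iff {N : ℕ} (w : Fin 4 → Fin N) (i : Fin N) : has w i = true ↔ ∃ a, w a = i := by
  unfold has
  simp [Fin.exists_fin_succ, or_assoc]

/-- The four values are different. -/
def dis {N : ℕ} (w : Fin 4 → Fin N) : Bool :=
  w 0 != w 1 && w 0 != w 2 && w 0 != w 3 && w 1 != w 2 && w 1 != w 3 && w 2 != w 3

theorem dis_inj {N : ℕ} {w : Fin 4 → Fin N} (h : dis w = true) : Function.Injective w := by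
  unfold dis at h
  simp only [Bool.and_eq_true, bne_iff_ne, ne_eq] at h
  obtain ⟨⟨⟨⟨⟨h1, h2⟩, h3⟩, h4⟩, h5⟩, h6⟩ := h
  intro a b hab
  fin_cases a <;> fin_cases b <;> simp_all

theorem words8_chk : ∀ i j l : Fin 8,
    (j == i || l == i || words8.any fun w => has w i && !(has w j) && !(has w l)) = true := by
  decide +kernel

theorem words8_dis : (words8.all fun w => dis w) = true := by decide +kernel

theorem words8_inj : ∀ w ∈ words8, Function.Injective w :=
  fun w hw => dis_inj (List.all_eq_true.1 words8_dis w hw)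

theorem words8_cover : ∀ i j l : Fin 8, j ≠ i → l ≠ i →
    ∃ w ∈ words8, (∃ a, w a = i) ∧ (∀ a, w a ≠ j) ∧ ∀ a, w a ≠ l := by
  intro i j l hj hl
  have h := words8_chk i j l
  simp only [Bool.or_eq_true, beq_iff_eq, hj, hl, false_or, List.any_eq_true, Bool.and_eq_true,
    Bool.not_eq_true', has_iff] at h
  obtain ⟨w, hw, ⟨h1, h2⟩, h3⟩ := h
  refine ⟨w, hw, h1, fun a ha => ?_, fun a ha => ?_⟩
  · rw [(has_iff w j).2 ⟨a, ha⟩] at h2
    exact absurd h2 (by decide)
  · rw [(has_iff w l).2 ⟨a, ha⟩] at h3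
    exact absurd h3 (by decide)

def words7 : List (Fin 4 → Fin 7) :=
  [![0, 1, 2, 3], ![0, 1, 4, 5], ![0, 2, 4, 6], ![1, 2, 5, 6], ![3, 4, 5, 2], ![3, 4, 6, 1],
    ![3, 5, 6, 0]]

theorem words7_chk : ∀ i j : Fin 7,
    (j == i || words7.any fun w => has w i && !(has w j)) = true := by
  decide +kernel

theorem words7_dis : (words7.all fun w => dis w) = true := by decide +kernel

theorem words7_inj : ∀ w ∈ words7, Function.Injective w :=
  fun w hw => dis_inj (List.all_eq_true.1 words7_dis w hw)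

theorem words7_cover : ∀ i j : Fin 7, j ≠ i →
    ∃ w ∈ words7, (∃ a, w a = i) ∧ (∀ a, w a ≠ j) := by
  intro i j hj
  have h := words7_chk i j
  simp only [Bool.or_eq_true, beq_iff_eq, hj, false_or, List.any_eq_true, Bool.and_eq_true,
    Bool.not_eq_true', has_iff] at h
  obtain ⟨w, hw, h1, h2⟩ := h
  refine ⟨w, hw, h1, fun a ha => ?_⟩
  rw [(has_iff w j).2 ⟨a, ha⟩] at h2
  exact absurd h2 (by decide)

/-- A set of at most two elements. -/
theorem sub_pair {N : ℕ} (hN : 1 < N) {i : Fin N} {S : Finset (Fin N)} (hi : i ∉ S)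
    (hS : S.card < 3) : ∃ j l, j ≠ i ∧ l ≠ i ∧ ∀ m ∈ S, m = j ∨ m = l := by
  classical
  have h0 : ∃ j : Fin N, j ≠ i := by
    have : Nontrivial (Fin N) := Fin.nontrivial_iff_two_le.2 hN
    exact exists_ne i
  obtain ⟨j0, hj0⟩ := h0
  have h1 : S.card = 0 ∨ S.card = 1 ∨ S.card = 2 := by omega
  rcases h1 with h1 | h1 | h1
  · rw [Finset.card_eq_zero] at h1
    refine ⟨j0, j0, hj0, hj0, fun m hm => ?_⟩
    rw [h1] at hm
    simp at hm
  · obtain ⟨j, rfl⟩ := Finset.card_eq_one.1 h1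
    have : j ≠ i := by
      rintro rfl
      exact hi (Finset.mem_singleton_self _)
    exact ⟨j, j, this, this, fun m hm => Or.inl (Finset.mem_singleton.1 hm)⟩
  · obtain ⟨j, l, -, rfl⟩ := Finset.card_eq_two.1 h1
    refine ⟨j, l, ?_, ?_, fun m hm => by simpa using hm⟩
    · rintro rfl
      exact hi (by simp)
    · rintro rfl
      exact hi (by simp)

theorem e8 {D k : ℝ} {W : Fin 8 → ℝ} (hk : 0 < k)
    (pts : ∀ i j, i ≠ j → Gp k (W i - W j))
    (line : ∀ i j l, i ≠ j → i ≠ l → j ≠ l → Gp k (D - W i - W j - W l))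
    (conic : ∀ i j l m o p, [i, j, l, m, o, p].Nodup →
      Gp k (2 * D - (W i + W j + W l + W m + W o + W p)))
    (cubic : ∀ i j l m o p q r, [i, j, l, m, o, p, q, r].Nodup →
      Gp k (3 * D - (W i + W j + W l + W m + W o + W p + W q + W r) - W i)) :
    (∀ i, D = 3 * W i) ∨ 2 * k ≤ (3 * D - ∑ i, W i) ^ 2 - D ^ 2 + ∑ i, W i ^ 2 := by
  obtain ⟨x, hx⟩ : ∃ x : Fin 8 → ℝ, x = ![W 0 - W 1, W 2 - W 3, W 4 - W 5, W 6 - W 7,
    2 * D - (W 2 + W 3 + W 4 + W 5 + W 6 + W 7), 2 * D - (W 0 + W 1 + W 4 + W 5 + W 6 + W 7),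
    2 * D - (W 0 + W 1 + W 2 + W 3 + W 6 + W 7),
    2 * D - (W 0 + W 1 + W 2 + W 3 + W 4 + W 5)] := ⟨_, rfl⟩
  have hgx : ∀ i, Gp k (x i) := by
    rw [hx]
    intro i
    fin_cases i
    · exact pts 0 1 (by decide)
    · exact pts 2 3 (by decide)
    · exact pts 4 5 (by decide)
    · exact pts 6 7 (by decide)
    · exact conic 2 3 4 5 6 7 (by decide)
    · exact conic 0 1 4 5 6 7 (by decide)
    · exact conic 0 1 2 3 6 7 (by decide)
    · exact conic 0 1 2 3 4 5 (by decide)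
  have hc : ∀ (i : Fin 8) (S : Finset (Fin 8)), i ∉ S → S.card < 3 →
      ∃ w ∈ words8, (∃ a, w a = i) ∧ ∀ m ∈ S, ∀ a, w a ≠ m := by
    intro i S hi hS
    obtain ⟨j, l, hj, hl, hm⟩ := sub_pair (by norm_num) hi hS
    obtain ⟨w, hw, ha, h1, h2⟩ := words8_cover i j l hj hl
    refine ⟨w, hw, ha, fun m hmS a => ?_⟩
    rcases hm m hmS with rfl | rfl
    · exact h1 a
    · exact h2 a
  have hsgn : ∀ a : Fin 4, (![-1, -1, 1, 1] : Fin 4 → ℝ) a = 1 ∨
      (![-1, -1, 1, 1] : Fin 4 → ℝ) a = -1 := by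
    intro a
    fin_cases a <;> norm_num
  have h := frame hk words8 3 le_rfl words8_inj hc x hgx (by
    intro w hw
    simp only [words8, List.mem_cons, List.not_mem_nil, or_false] at hw
    rcases hw with rfl | rfl | rfl | rfl | rfl | rfl | rfl | rfl | rfl | rfl | rfl | rfl | rfl | rfl
    · refine ⟨2 * D - (W 0 + W 2 + W 4 + W 5 + W 6 + W 7), ![-1, -1, 1, 1], hsgn, ?_,
        conic 0 2 4 5 6 7 (by decide)⟩
      simp [Fin.sum_univ_four, hx]
      ring
    · refine ⟨2 * D - (W 0 + W 4 + W 2 + W 3 + W 6 + W 7), ![-1, -1, 1, 1], hsgn, ?_,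
        conic 0 4 2 3 6 7 (by decide)⟩
      simp [Fin.sum_univ_four, hx]
      ring
    · refine ⟨2 * D - (W 0 + W 6 + W 2 + W 3 + W 4 + W 5), ![-1, -1, 1, 1], hsgn, ?_,
        conic 0 6 2 3 4 5 (by decide)⟩
      simp [Fin.sum_univ_four, hx]
      ring
    · refine ⟨2 * D - (W 2 + W 4 + W 0 + W 1 + W 6 + W 7), ![-1, -1, 1, 1], hsgn, ?_,
        conic 2 4 0 1 6 7 (by decide)⟩
      simp [Fin.sum_univ_four, hx]
      ring
    · refine ⟨2 * D - (W 2 + W 6 + W 0 + W 1 + W 4 + W 5), ![-1, -1, 1, 1], hsgn, ?_,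
        conic 2 6 0 1 4 5 (by decide)⟩
      simp [Fin.sum_univ_four, hx]
      ring
    · refine ⟨2 * D - (W 4 + W 6 + W 0 + W 1 + W 2 + W 3), ![-1, -1, 1, 1], hsgn, ?_,
        conic 4 6 0 1 2 3 (by decide)⟩
      simp [Fin.sum_univ_four, hx]
      ring
    · refine ⟨D - W 1 - W 3 - W 5, fun _ => 1, fun _ => Or.inl rfl, ?_,
        line 1 3 5 (by decide) (by decide) (by decide)⟩
      simp [Fin.sum_univ_four, hx]
      ring
    · refine ⟨D - W 1 - W 3 - W 7, fun _ => 1, fun _ => Or.inl rfl, ?_,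
        line 1 3 7 (by decide) (by decide) (by decide)⟩
      simp [Fin.sum_univ_four, hx]
      ring
    · refine ⟨D - W 1 - W 5 - W 7, fun _ => 1, fun _ => Or.inl rfl, ?_,
        line 1 5 7 (by decide) (by decide) (by decide)⟩
      simp [Fin.sum_univ_four, hx]
      ring
    · refine ⟨D - W 3 - W 5 - W 7, fun _ => 1, fun _ => Or.inl rfl, ?_,
        line 3 5 7 (by decide) (by decide) (by decide)⟩
      simp [Fin.sum_univ_four, hx]
      ring
    · refine ⟨3 * D - (W 7 + W 0 + W 1 + W 2 + W 3 + W 4 + W 5 + W 6) - W 7, fun _ => 1,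
        fun _ => Or.inl rfl, ?_, cubic 7 0 1 2 3 4 5 6 (by decide)⟩
      simp [Fin.sum_univ_four, hx]
      ring
    · refine ⟨3 * D - (W 5 + W 0 + W 1 + W 2 + W 3 + W 4 + W 6 + W 7) - W 5, fun _ => 1,
        fun _ => Or.inl rfl, ?_, cubic 5 0 1 2 3 4 6 7 (by decide)⟩
      simp [Fin.sum_univ_four, hx]
      ring
    · refine ⟨3 * D - (W 3 + W 0 + W 1 + W 2 + W 4 + W 5 + W 6 + W 7) - W 3, fun _ => 1,
        fun _ => Or.inl rfl, ?_, cubic 3 0 1 2 4 5 6 7 (by decide)⟩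
      simp [Fin.sum_univ_four, hx]
      ring
    · refine ⟨3 * D - (W 1 + W 0 + W 2 + W 3 + W 4 + W 5 + W 6 + W 7) - W 1, fun _ => 1,
        fun _ => Or.inl rfl, ?_, cubic 1 0 2 3 4 5 6 7 (by decide)⟩
      simp [Fin.sum_univ_four, hx]
      ring)
  rcases h with h | h
  · left
    have h0 := h 0
    have h1 := h 1
    have h2 := h 2
    have h3 := h 3
    have h4 := h 4
    have h5 := h 5
    have h6 := h 6
    have h7 := h 7
    simp [hx] at h0 h1 h2 h3 h4 h5 h6 h7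
    intro i
    fin_cases i <;> simp <;> linarith
  · right
    have e : ∑ i, x i ^ 2 = 2 * ((3 * D - ∑ i, W i) ^ 2 - D ^ 2 + ∑ i, W i ^ 2) := by
      simp [Fin.sum_univ_eight, hx]
      ring
    rw [e] at h
    norm_num at h
    linarith

theorem e7 {D k : ℝ} {W : Fin 7 → ℝ} (hk : 0 < k)
    (pts : ∀ i j, i ≠ j → Gp k (W i - W j))
    (line : ∀ i j l, i ≠ j → i ≠ l → j ≠ l → Gp k (D - W i - W j - W l))
    (conic : ∀ i j l m o p, [i, j, l, m, o, p].Nodup →
      Gp k (2 * D - (W i + W j + W l + W m + W o + W p))) :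
    (∀ i, D = 3 * W i) ∨ 3 * k ≤ (3 * D - ∑ i, W i) ^ 2 - 2 * D ^ 2 + 2 * ∑ i, W i ^ 2 := by
  obtain ⟨x, hx⟩ : ∃ x : Fin 7 → ℝ, x = ![W 0 - W 1, W 2 - W 3, W 4 - W 5,
    2 * D - (W 0 + W 1 + W 2 + W 3 + W 4 + W 5), D - W 0 - W 1 - W 6, D - W 2 - W 3 - W 6,
    D - W 4 - W 5 - W 6] := ⟨_, rfl⟩
  have hgx : ∀ i, Gp k (x i) := by
    rw [hx]
    intro i
    fin_cases i
    · exact pts 0 1 (by decide)
    · exact pts 2 3 (by decide)
    · exact pts 4 5 (by decide)
    · exact conic 0 1 2 3 4 5 (by decide)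
    · exact line 0 1 6 (by decide) (by decide) (by decide)
    · exact line 2 3 6 (by decide) (by decide) (by decide)
    · exact line 4 5 6 (by decide) (by decide) (by decide)
  have hc : ∀ (i : Fin 7) (S : Finset (Fin 7)), i ∉ S → S.card < 2 →
      ∃ w ∈ words7, (∃ a, w a = i) ∧ ∀ m ∈ S, ∀ a, w a ≠ m := by
    intro i S hi hS
    have h1 : S.card = 0 ∨ S.card = 1 := by omega
    rcases h1 with h1 | h1
    · rw [Finset.card_eq_zero] at h1
      obtain ⟨j, hj⟩ := exists_ne i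
      obtain ⟨w, hw, ha, -⟩ := words7_cover i j hj
      exact ⟨w, hw, ha, fun m hm => by simp [h1] at hm⟩
    · obtain ⟨j, rfl⟩ := Finset.card_eq_one.1 h1
      have hj : j ≠ i := by
        rintro rfl
        exact hi (Finset.mem_singleton_self _)
      obtain ⟨w, hw, ha, h2⟩ := words7_cover i j hj
      refine ⟨w, hw, ha, fun m hm a => ?_⟩
      rw [Finset.mem_singleton.1 hm]
      exact h2 a
  have h := frame hk words7 2 (by norm_num) words7_inj hc x hgx (by
    intro w hw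
    simp only [words7, List.mem_cons, List.not_mem_nil, or_false] at hw
    rcases hw with rfl | rfl | rfl | rfl | rfl | rfl | rfl
    · refine ⟨D - W 1 - W 3 - W 5, fun _ => 1, fun _ => Or.inl rfl, ?_,
        line 1 3 5 (by decide) (by decide) (by decide)⟩
      simp [Fin.sum_univ_four, hx]
      ring
    · refine ⟨D - W 1 - W 3 - W 6, fun _ => 1, fun _ => Or.inl rfl, ?_,
        line 1 3 6 (by decide) (by decide) (by decide)⟩
      simp [Fin.sum_univ_four, hx]
      ring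
    · refine ⟨D - W 1 - W 5 - W 6, fun _ => 1, fun _ => Or.inl rfl, ?_,
        line 1 5 6 (by decide) (by decide) (by decide)⟩
      simp [Fin.sum_univ_four, hx]
      ring
    · refine ⟨D - W 3 - W 5 - W 6, fun _ => 1, fun _ => Or.inl rfl, ?_,
        line 3 5 6 (by decide) (by decide) (by decide)⟩
      simp [Fin.sum_univ_four, hx]
      ring
    · refine ⟨2 * D - (W 0 + W 1 + W 2 + W 3 + W 5 + W 6), fun _ => 1, fun _ => Or.inl rfl, ?_,
        conic 0 1 2 3 5 6 (by decide)⟩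
      simp [Fin.sum_univ_four, hx]
      ring
    · refine ⟨2 * D - (W 0 + W 1 + W 4 + W 5 + W 3 + W 6), fun _ => 1, fun _ => Or.inl rfl, ?_,
        conic 0 1 4 5 3 6 (by decide)⟩
      simp [Fin.sum_univ_four, hx]
      ring
    · refine ⟨2 * D - (W 2 + W 3 + W 4 + W 5 + W 1 + W 6), fun _ => 1, fun _ => Or.inl rfl, ?_,
        conic 2 3 4 5 1 6 (by decide)⟩
      simp [Fin.sum_univ_four, hx]
      ring)
  rcases h with h | h
  · left
    have h0 := h 0
    have h1 := h 1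
    have h2 := h 2
    have h3 := h 3
    have h4 := h 4
    have h5 := h 5
    have h6 := h 6
    simp [hx] at h0 h1 h2 h3 h4 h5 h6
    intro i
    fin_cases i <;> simp <;> linarith
  · right
    have e : ∑ i, x i ^ 2 = (3 * D - ∑ i, W i) ^ 2 - 2 * D ^ 2 + 2 * ∑ i, W i ^ 2 := by
      simp [Fin.sum_univ_seven, hx]
      ring
    rw [e] at h
    norm_num at h
    linarith

end Pool.Agent.H902
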