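import Pool.Agent.H902.Frame

set_option autoImplicit false
set_option linter.unusedVariables false

/-!
# The components in `E_6` and `D_m`; nine points
-/

namespace Pool.Agent.H902

theorem a2 {k p q : ℝ} (hk : 0 < k) (hp : Gp k p) (hq : Gp k q) (hr : Gp k (p + q)) :
    (p = 0 ∧ q = 0) ∨ 2 * k ≤ p ^ 2 + q ^ 2 + (p + q) ^ 2 := by
  rcases hp with hp | hp
  · rcases hq with hq | hq
    · exact Or.inl ⟨hp, hq⟩
    · right
      rw [hp]
      nlinarith
  · rcases hq with hq | hq
    · right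
      rw [hq]
      nlinarith
    · right
      nlinarith [sq_nonneg (p + q)]

/-- Three numbers with the sum zero. -/
theorem a2' {k x y z : ℝ} (hk : 0 < k) (hx : Gp k x) (hy : Gp k y) (hz : Gp k z)
    (h : x + y + z = 0) :
    (x = 0 ∧ y = 0 ∧ z = 0) ∨ 6 * k ≤ (x - y) ^ 2 + (y - z) ^ 2 + (x - z) ^ 2 := by
  have e : (x - y) ^ 2 + (y - z) ^ 2 + (x - z) ^ 2 = 3 * (x ^ 2 + y ^ 2 + z ^ 2) := by
    have : z = -x - y := by linarith
    rw [this]
    ring
  rw [e]
  rcases hx with hx | hx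
  · rcases hy with hy | hy
    · left
      refine ⟨hx, hy, by linarith⟩
    · right
      have h1 : z ^ 2 = y ^ 2 := by
        have : z = -y := by linarith
        rw [this]
        ring
      nlinarith
  · rcases hy with hy | hy
    · right
      have h1 : z ^ 2 = x ^ 2 := by
        have : z = -x := by linarith
        rw [this]
        ring
      nlinarith
    · right
      nlinarith [sq_nonneg z]

theorem e6 {D k : ℝ} {W : Fin 6 → ℝ} (hk : 0 < k)
    (pts : ∀ i j, i ≠ j → Gp k (W i - W j))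
    (line : ∀ i j l, i ≠ j → i ≠ l → j ≠ l → Gp k (D - W i - W j - W l))
    (conic : ∀ i j l m o p, [i, j, l, m, o, p].Nodup →
      Gp k (2 * D - (W i + W j + W l + W m + W o + W p))) :
    (∀ i, D = 3 * W i) ∨ 4 * k ≤ (3 * D - ∑ i, W i) ^ 2 - 3 * D ^ 2 + 3 * ∑ i, W i ^ 2 := by
  have p01 := pts 0 1 (by decide)
  have p12 := pts 1 2 (by decide)
  have p02 := pts 0 2 (by decide)
  have p34 := pts 3 4 (by decide)
  have p45 := pts 4 5 (by decide)
  have p35 := pts 3 5 (by decide)
  have l1 := line 0 1 2 (by decide) (by decide) (by decide)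
  have l2 := line 3 4 5 (by decide) (by decide) (by decide)
  have c := conic 0 1 2 3 4 5 (by decide)
  have hP := a2 hk p01 p12 (by
    have e : W 0 - W 1 + (W 1 - W 2) = W 0 - W 2 := by ring
    rw [e]
    exact p02)
  have hQ := a2 hk p34 p45 (by
    have e : W 3 - W 4 + (W 4 - W 5) = W 3 - W 5 := by ring
    rw [e]
    exact p35)
  have hR := a2 hk l1 l2 (by
    have e : D - W 0 - W 1 - W 2 + (D - W 3 - W 4 - W 5) =
        2 * D - (W 0 + W 1 + W 2 + W 3 + W 4 + W 5) := by ring
    rw [e]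
    exact c)
  have e : (3 * D - ∑ i, W i) ^ 2 - 3 * D ^ 2 + 3 * ∑ i, W i ^ 2 =
      ((W 0 - W 1) ^ 2 + (W 1 - W 2) ^ 2 + (W 0 - W 1 + (W 1 - W 2)) ^ 2) +
      ((W 3 - W 4) ^ 2 + (W 4 - W 5) ^ 2 + (W 3 - W 4 + (W 4 - W 5)) ^ 2) +
      ((D - W 0 - W 1 - W 2) ^ 2 + (D - W 3 - W 4 - W 5) ^ 2 +
        (D - W 0 - W 1 - W 2 + (D - W 3 - W 4 - W 5)) ^ 2) := by
    simp only [Fin.sum_univ_six]
    ring
  rw [e]
  obtain ⟨A, hA⟩ : ∃ A, A = (W 0 - W 1) ^ 2 + (W 1 - W 2) ^ 2 + (W 0 - W 1 + (W 1 - W 2)) ^ 2 :=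
    ⟨_, rfl⟩
  obtain ⟨B, hB⟩ : ∃ B, B = (W 3 - W 4) ^ 2 + (W 4 - W 5) ^ 2 + (W 3 - W 4 + (W 4 - W 5)) ^ 2 :=
    ⟨_, rfl⟩
  obtain ⟨C, hC⟩ : ∃ C, C = (D - W 0 - W 1 - W 2) ^ 2 + (D - W 3 - W 4 - W 5) ^ 2 +
        (D - W 0 - W 1 - W 2 + (D - W 3 - W 4 - W 5)) ^ 2 := ⟨_, rfl⟩
  have hA0 : 0 ≤ A := by
    rw [hA]
    positivity
  have hB0 : 0 ≤ B := by
    rw [hB]
    positivity
  have hC0 : 0 ≤ C := by
    rw [hC]
    positivity
  rw [← hA] at hP
  rw [← hB] at hQ
  rw [← hC] at hR
  rw [← hA, ← hB, ← hC]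
  rcases hP with ⟨P1, P2⟩ | hP
  · rcases hQ with ⟨Q1, Q2⟩ | hQ
    · rcases hR with ⟨R1, R2⟩ | hR
      · left
        intro i
        fin_cases i <;> simp <;> linarith
      · -- only the third block
        have z1 := pts 0 3 (by decide)
        have z2 := line 0 1 3 (by decide) (by decide) (by decide)
        have z3 := line 0 3 4 (by decide) (by decide) (by decide)
        have h := a2' (x := D - W 0 - W 1 - W 3) (y := W 0 - W 3) (z := -(D - W 0 - W 3 - W 4))
          hk z2 z1 z3.neg (by linarith)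
        rcases h with ⟨h1, h2, h3⟩ | h
        · left
          intro i
          fin_cases i <;> simp <;> linarith
        · right
          have e1 : D - W 0 - W 1 - W 3 - (W 0 - W 3) = D - W 0 - W 1 - W 2 := by linarith
          have e2 : W 0 - W 3 - -(D - W 0 - W 3 - W 4) = D - W 3 - W 4 - W 5 := by linarith
          have e3 : D - W 0 - W 1 - W 3 - -(D - W 0 - W 3 - W 4) =
            D - W 0 - W 1 - W 2 + (D - W 3 - W 4 - W 5) := by linarith
          rw [e1, e2, e3, ← hC] at h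
          linarith
    · rcases hR with ⟨R1, R2⟩ | hR
      · -- only the second block
        have z1 := pts 0 3 (by decide)
        have z2 := pts 0 4 (by decide)
        have z3 := pts 0 5 (by decide)
        have h := a2' hk z1 z2 z3 (by linarith)
        rcases h with ⟨h1, h2, h3⟩ | h
        · left
          intro i
          fin_cases i <;> simp <;> linarith
        · right
          have e1 : W 0 - W 3 - (W 0 - W 4) = -(W 3 - W 4) := by ring
          have e2 : W 0 - W 4 - (W 0 - W 5) = -(W 4 - W 5) := by ring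
          have e3 : W 0 - W 3 - (W 0 - W 5) = -(W 3 - W 4 + (W 4 - W 5)) := by ring
          rw [e1, e2, e3, neg_sq, neg_sq, neg_sq, ← hB] at h
          linarith
      · right
        linarith
  · rcases hQ with ⟨Q1, Q2⟩ | hQ
    · rcases hR with ⟨R1, R2⟩ | hR
      · -- only the first block
        have z1 := pts 3 0 (by decide)
        have z2 := pts 3 1 (by decide)
        have z3 := pts 3 2 (by decide)
        have h := a2' hk z1 z2 z3 (by linarith)
        rcases h with ⟨h1, h2, h3⟩ | h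
        · left
          intro i
          fin_cases i <;> simp <;> linarith
        · right
          have e1 : W 3 - W 0 - (W 3 - W 1) = -(W 0 - W 1) := by ring
          have e2 : W 3 - W 1 - (W 3 - W 2) = -(W 1 - W 2) := by ring
          have e3 : W 3 - W 0 - (W 3 - W 2) = -(W 0 - W 1 + (W 1 - W 2)) := by ring
          rw [e1, e2, e3, neg_sq, neg_sq, neg_sq, ← hA] at h
          linarith
      · right
        linarith
    · right
      linarith

/-- The components in `D_m`. -/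
theorem dm {ι : Type} [DecidableEq ι] {k s : ℝ} {W : ι → ℝ} {M : Finset ι} (hk : 0 < k)
    (hM : 4 ≤ M.card) (pts : ∀ i ∈ M, ∀ j ∈ M, i ≠ j → Gp k (W i - W j))
    (line : ∀ i ∈ M, ∀ j ∈ M, i ≠ j → Gp k (s - W i - W j)) :
    (∀ i ∈ M, 2 * W i = s) ∨ 4 * k ≤ ∑ i ∈ M, (2 * W i - s) ^ 2 := by
  by_cases h0 : ∀ i ∈ M, 2 * W i = s
  · exact Or.inl h0
  right
  push Not at h0
  obtain ⟨i, hi, hne⟩ := h0
  obtain ⟨y, hy⟩ : ∃ y : ι → ℝ, y = fun i => 2 * W i - s := ⟨_, rfl⟩
  have hyi : y i ≠ 0 := by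
    rw [hy]
    exact sub_ne_zero.2 hne
  have hsum : ∑ i ∈ M, (2 * W i - s) ^ 2 = ∑ i ∈ M, y i ^ 2 := by rw [hy]
  rw [hsum]
  have g1 : ∀ a ∈ M, ∀ b ∈ M, a ≠ b → y a = y b ∨ 4 * k ≤ (y a - y b) ^ 2 := by
    intro a ha b hb hab
    rcases pts a ha b hb hab with h | h
    · left
      rw [hy]
      simp only
      linarith
    · right
      rw [hy]
      simp only
      nlinarith
  have g2 : ∀ a ∈ M, ∀ b ∈ M, a ≠ b → y a = -y b ∨ 4 * k ≤ (y a + y b) ^ 2 := by
    intro a ha b hb hab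
    rcases line a ha b hb hab with h | h
    · left
      rw [hy]
      simp only
      linarith
    · right
      rw [hy]
      simp only
      nlinarith
  by_cases hj : ∃ j ∈ M, y j ≠ y i ∧ y j ≠ - y i
  · obtain ⟨j, hjM, hj1, hj2⟩ := hj
    have hij : i ≠ j := by
      rintro rfl
      exact hj1 rfl
    have h1 := (g1 i hi j hjM hij).resolve_left (fun h => hj1 h.symm)
    have h2 := (g2 i hi j hjM hij).resolve_left (fun h => hj2 (by linarith))
    have h3 : ∑ l ∈ ({i, j} : Finset ι), y l ^ 2 ≤ ∑ l ∈ M, y l ^ 2 :=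
      Finset.sum_le_sum_of_subset_of_nonneg (by
        intro l hl
        rcases Finset.mem_insert.1 hl with rfl | hl
        · exact hi
        · rw [Finset.mem_singleton.1 hl]
          exact hjM) fun l _ _ => sq_nonneg _
    rw [Finset.sum_pair hij] at h3
    nlinarith
  · push Not at hj
    have hsq : ∀ j ∈ M, y j ^ 2 = y i ^ 2 := by
      intro j hjM
      by_cases h : y j = y i
      · rw [h]
      · rw [hj j hjM h, neg_sq]
    have h1 : 1 < M.card := by omega
    obtain ⟨j, hjM, hji⟩ := Finset.exists_mem_ne h1 i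
    have h2 : k ≤ y i ^ 2 := by
      by_cases h : y j = y i
      · rcases g2 i hi j hjM hji.symm with h3 | h3
        · exact absurd (by linarith : y i = 0) hyi
        · rw [h] at h3
          nlinarith
      · have h4 := hj j hjM h
        rcases g1 i hi j hjM hji.symm with h3 | h3
        · exact absurd h3.symm h
        · rw [h4] at h3
          nlinarith
    rw [Finset.sum_congr rfl hsq, Finset.sum_const, nsmul_eq_mul]
    have h3 : (4 : ℝ) ≤ M.card := by exact_mod_cast hM
    nlinarith [sq_nonneg (y i)]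

/-- Nine numbers in increasing order: standard classes. -/
theorem nine {D k : ℝ} {W : Fin 9 → ℝ} (hk : 0 < k) (hmono : Monotone W)
    (hst : 0 ≤ D - W 6 - W 7 - W 8)
    (pts : ∀ i j, i ≠ j → Gp k (W i - W j))
    (line : ∀ i j l, i ≠ j → i ≠ l → j ≠ l → Gp k (D - W i - W j - W l)) :
    4 * k ≤ (3 * D - ∑ i, W i) ^ 2 ∨
      ((∀ i, i ≠ 0 → D = 3 * W i) ∧
        (3 * D - ∑ i, W i = 0 ∨ k ≤ (3 * D - ∑ i, W i) ^ 2)) := by
  obtain ⟨c, hc⟩ : ∃ c : Fin 9 → ℝ, c = ![D - W 6 - W 7 - W 8, W 8 - W 7, W 7 - W 6, W 6 - W 5,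
    W 5 - W 4, W 4 - W 3, W 3 - W 2, W 2 - W 1, W 1 - W 0] := ⟨_, rfl⟩
  have hg : ∀ i, Gp k (c i) := by
    rw [hc]
    intro i
    fin_cases i
    · exact line 6 7 8 (by decide) (by decide) (by decide)
    · exact pts 8 7 (by decide)
    · exact pts 7 6 (by decide)
    · exact pts 6 5 (by decide)
    · exact pts 5 4 (by decide)
    · exact pts 4 3 (by decide)
    · exact pts 3 2 (by decide)
    · exact pts 2 1 (by decide)
    · exact pts 1 0 (by decide)
  have hm : ∀ i j : Fin 9, i ≤ j → 0 ≤ W j - W i := fun i j h => sub_nonneg.2 (hmono h)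
  have hn : ∀ i, 0 ≤ c i := by
    rw [hc]
    intro i
    fin_cases i
    · exact hst
    · exact hm 7 8 (by decide)
    · exact hm 6 7 (by decide)
    · exact hm 5 6 (by decide)
    · exact hm 4 5 (by decide)
    · exact hm 3 4 (by decide)
    · exact hm 2 3 (by decide)
    · exact hm 1 2 (by decide)
    · exact hm 0 1 (by decide)
  have e : 3 * D - ∑ i, W i = 3 * c 0 + 2 * c 1 + 4 * c 2 + 6 * c 3 + 5 * c 4 + 4 * c 5 +
      3 * c 6 + 2 * c 7 + c 8 := by
    simp [Fin.sum_univ_succ, hc]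
    ring
  rw [e]
  have h0 := hn 0
  have h1 := hn 1
  have h2 := hn 2
  have h3 := hn 3
  have h4 := hn 4
  have h5 := hn 5
  have h6 := hn 6
  have h7 := hn 7
  have h8 := hn 8
  have key : ∀ x : ℝ, 0 ≤ x → Gp k x → x = 0 ∨ ∀ y, 2 * x ≤ y → 4 * k ≤ y ^ 2 := by
    intro x hx hgx
    rcases hgx with h | h
    · exact Or.inl h
    · right
      intro y hy
      nlinarith
  rcases key _ h0 (hg 0) with a0 | a0
  swap
  · left; exact a0 _ (by linarith)
  rcases key _ h1 (hg 1) with a1 | a1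
  swap
  · left; exact a1 _ (by linarith)
  rcases key _ h2 (hg 2) with a2 | a2
  swap
  · left; exact a2 _ (by linarith)
  rcases key _ h3 (hg 3) with a3 | a3
  swap
  · left; exact a3 _ (by linarith)
  rcases key _ h4 (hg 4) with a4 | a4
  swap
  · left; exact a4 _ (by linarith)
  rcases key _ h5 (hg 5) with a5 | a5
  swap
  · left; exact a5 _ (by linarith)
  rcases key _ h6 (hg 6) with a6 | a6
  swap
  · left; exact a6 _ (by linarith)
  rcases key _ h7 (hg 7) with a7 | a7
  swap
  · left; exact a7 _ (by linarith)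
  right
  refine ⟨?_, ?_⟩
  · simp [hc] at a0 a1 a2 a3 a4 a5 a6 a7
    intro i hi
    fin_cases i
    · exact absurd rfl hi
    all_goals simp
    all_goals linarith
  · rw [a0, a1, a2, a3, a4, a5, a6, a7]
    have := hg 8
    unfold Gp at this
    simpa using this

end Pool.Agent.H902
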