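import Pool.Graph.R_pool_sql_team_seeded_64922ed1.X157.W.Root
import Pool.Graph.R_seed8.R355.ConeAct
import Pool.Graph.R_seed8.TH167.SH.Fam
import Pool.Graph.R_seed8.TH167.SH.Conv

set_option autoImplicit false

/-!
# The gap property of the classes of negative curves, for lines, conics and cubics
-/

namespace Pool.Agent.H902

open MvPolynomial Pool.Agent.W609 Pool.Agent.W609.CR Pool.Agent.TH167 Pool.Agent.TH167.SHDefs
  Pool.Agent.TH167.SH
  Pool.Agent.X157.W
open Pool.Agent.R355.ConeAct (curveClasses curvCone dot)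

/-- `r` is zero or its square is at least `k`. -/
def Gp (k r : ℝ) : Prop := r = 0 ∨ k ≤ r ^ 2

theorem Gp.neg {k r : ℝ} (h : Gp k r) : Gp k (-r) := by
  rcases h with h | h
  · exact Or.inl (by rw [h, neg_zero])
  · exact Or.inr (by rw [neg_sq]; exact h)

/-- The intersection number of the class `(a, b)` with the class `v`. -/
noncomputable def val {n : ℕ} (a : ℤ) (b : Fin n → ℤ) (v : ℝ × (Fin n → ℝ)) : ℝ :=
  a * v.1 - ∑ l, (b l : ℝ) * v.2 l

/-- The gap property: the intersection numbers with all real roots are zero, or have a square at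
least `- v ^ 2`. -/
def Gap {n : ℕ} (v : ℝ × (Fin n → ℝ)) : Prop :=
  ∀ (a : ℤ) (b : Fin n → ℤ), Root a b → Gp (-dot v v) (val a b v)

theorem gap_class {n : ℕ} {P : Fin n → Fin 2 → ℂ} (hP : Gen P) {v : ℝ × (Fin n → ℝ)}
    (hv : v ∈ curveClasses P) (hneg : dot v v < 0) : Gap v := by
  classical
  intro a b hab
  rcases hv with ⟨G, d, w, hG, rfl⟩ | ⟨j, rfl⟩
  · have e1 : dot ((d : ℝ), fun i => (w i : ℝ)) ((d : ℝ), fun i => (w i : ℝ)) =
        ((ip d w d w : ℤ) : ℝ) := by
      unfold dot ip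
      push_cast
      rfl
    have e2 : val a b ((d : ℝ), fun i => (w i : ℝ)) = ((pr a b d w : ℤ) : ℝ) := by
      unfold val pr
      push_cast
      rfl
    rw [e1] at hneg ⊢
    rw [e2]
    have hneg' : ip d w d w < 0 := by exact_mod_cast hneg
    have hIc : Ic P d w := ⟨G, SH.curve_iff.1 hG⟩
    by_cases hne : NotExc d w
    · rcases root_gap hP hab d w hIc hne with h1 | h1
      · exact Or.inl (by rw [h1, Int.cast_zero])
      · right
        have h2 : (0 : ℝ) ≤ ((ip d w d w + pr a b d w ^ 2 : ℤ) : ℝ) := by exact_mod_cast h1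
        push_cast at h2
        linarith
    · unfold NotExc at hne
      rw [not_not] at hne
      by_cases h0 : pr a b d w = 0
      · exact Or.inl (by rw [h0, Int.cast_zero])
      · right
        rw [hne.1]
        have h1 : 0 < (pr a b d w) ^ 2 := by positivity
        have h2 : (1 : ℝ) ≤ (((pr a b d w) ^ 2 : ℤ) : ℝ) := by exact_mod_cast h1
        push_cast at h2 ⊢
        linarith
  · have e1 : dot ((0 : ℝ), (Pi.single j (-1 : ℝ) : Fin n → ℝ))
        ((0 : ℝ), (Pi.single j (-1 : ℝ) : Fin n → ℝ)) = -1 := by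
      unfold dot
      simp only
      rw [Finset.sum_eq_single j]
      · rw [Pi.single_eq_same]
        norm_num
      · intro l _ hl
        rw [Pi.single_eq_of_ne hl]
        norm_num
      · intro h
        exact absurd (Finset.mem_univ j) h
    have e2 : val a b ((0 : ℝ), (Pi.single j (-1 : ℝ) : Fin n → ℝ)) = ((b j : ℤ) : ℝ) := by
      unfold val
      simp only
      rw [Finset.sum_eq_single j]
      · rw [Pi.single_eq_same]
        ring
      · intro l _ hl
        rw [Pi.single_eq_of_ne hl]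
        norm_num
      · intro h
        exact absurd (Finset.mem_univ j) h
    rw [e1, e2]
    by_cases h0 : b j = 0
    · exact Or.inl (by rw [h0, Int.cast_zero])
    · right
      have h1 : 0 < (b j) ^ 2 := by positivity
      have h2 : (1 : ℝ) ≤ (((b j) ^ 2 : ℤ) : ℝ) := by exact_mod_cast h1
      push_cast at h2 ⊢
      linarith

/-! ## Values -/

theorem sum3 {n : ℕ} {i j k : Fin n} (hij : i ≠ j) (hik : i ≠ k) (hjk : j ≠ k)
    (x : Fin n → ℝ) (c : ℝ) :
    ∑ l, (if l = i ∨ l = j ∨ l = k then c else 0) * x l = c * (x i + x j + x k) := by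
  classical
  have h1 : ∀ l, (if l = i ∨ l = j ∨ l = k then c else 0) * x l =
      (if l = i then c * x i else 0) + (if l = j then c * x j else 0) +
        (if l = k then c * x k else 0) := by
    intro l
    by_cases c0 : l = i
    · subst c0
      simp [hij, hik]
    · by_cases c1 : l = j
      · subst c1
        simp [c0, hjk]
      · by_cases c2 : l = k
        · subst c2
          simp [c0, c1]
        · simp [c0, c1, c2]
  rw [Finset.sum_congr rfl fun l _ => h1 l, Finset.sum_add_distrib, Finset.sum_add_distrib,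
    Finset.sum_ite_eq' Finset.univ, Finset.sum_ite_eq' Finset.univ,
    Finset.sum_ite_eq' Finset.univ]
  simp only [Finset.mem_univ, if_true]
  ring

theorem val_pts {n : ℕ} {i j : Fin n} (hij : i ≠ j) (v : ℝ × (Fin n → ℝ)) :
    val 0 (fun l => (if l = i then (1 : ℤ) else 0) - (if l = j then 1 else 0)) v =
      v.2 j - v.2 i := by
  classical
  unfold val
  have h1 : ∀ l, ((((if l = i then (1 : ℤ) else 0) - (if l = j then 1 else 0) : ℤ)) : ℝ) * v.2 l =
      (if l = i then v.2 i else 0) - (if l = j then v.2 j else 0) := by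
    intro l
    by_cases c0 : l = i
    · subst c0
      simp [hij]
    · by_cases c1 : l = j
      · subst c1
        simp [c0]
      · simp [c0, c1]
  rw [Finset.sum_congr rfl fun l _ => h1 l, Finset.sum_sub_distrib,
    Finset.sum_ite_eq' Finset.univ, Finset.sum_ite_eq' Finset.univ]
  simp

theorem val_line {n : ℕ} {i j k : Fin n} (hij : i ≠ j) (hik : i ≠ k) (hjk : j ≠ k)
    (v : ℝ × (Fin n → ℝ)) :
    val 1 (fun l => if l = i ∨ l = j ∨ l = k then 1 else 0) v =
      v.1 - v.2 i - v.2 j - v.2 k := by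
  unfold val
  have h := sum3 hij hik hjk v.2 1
  have h1 : ∀ l, ((if l = i ∨ l = j ∨ l = k then 1 else 0 : ℤ) : ℝ) * v.2 l =
      (if l = i ∨ l = j ∨ l = k then (1 : ℝ) else 0) * v.2 l := by
    intro l
    split_ifs <;> simp
  rw [Finset.sum_congr rfl fun l _ => h1 l, h]
  push_cast
  ring

theorem val_refl {n : ℕ} {i j k : Fin n} (hij : i ≠ j) (hik : i ≠ k) (hjk : j ≠ k)
    (a : ℤ) (b : Fin n → ℤ) (v : ℝ × (Fin n → ℝ)) :
    val (a + (a - b i - b j - b k))
      (fun l => b l + if l = i ∨ l = j ∨ l = k then a - b i - b j - b k else 0) v =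
      val a b v + (a - b i - b j - b k) * (v.1 - v.2 i - v.2 j - v.2 k) := by
  unfold val
  have h := sum3 hij hik hjk v.2 ((a - b i - b j - b k : ℤ) : ℝ)
  have h1 : ∀ l, ((b l + (if l = i ∨ l = j ∨ l = k then a - b i - b j - b k else 0) : ℤ) : ℝ) *
      v.2 l = (b l : ℝ) * v.2 l +
        (if l = i ∨ l = j ∨ l = k then ((a - b i - b j - b k : ℤ) : ℝ) else 0) * v.2 l := by
    intro l
    split_ifs
    · push_cast
      ring
    · push_cast
      ring
  rw [Finset.sum_congr rfl fun l _ => h1 l, Finset.sum_add_distrib, h]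
  push_cast
  ring

/-- The conics through six points. -/
theorem conic_root {n : ℕ} {i j k l m o : Fin n} (h : [i, j, k, l, m, o].Nodup) :
    ∃ (a : ℤ) (b : Fin n → ℤ), Root a b ∧ a = 2 ∧
      (∀ x, b x = if x = i ∨ x = j ∨ x = k ∨ x = l ∨ x = m ∨ x = o then 1 else 0) ∧
      ∀ v : ℝ × (Fin n → ℝ), val a b v =
        2 * v.1 - (v.2 i + v.2 j + v.2 k + v.2 l + v.2 m + v.2 o) := by
  simp only [List.nodup_cons, List.mem_cons, List.not_mem_nil, or_false, not_or,
    List.nodup_nil, and_true, not_false_eq_true] at h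
  obtain ⟨⟨ij, ik, il, im, io⟩, ⟨jk, jl, jm, jo⟩, ⟨kl, km, ko⟩, ⟨lm, lo⟩, mo⟩ := h
  obtain ⟨a0, b0, r1, ha0, hb0, hv0⟩ : ∃ (a : ℤ) (b : Fin n → ℤ), Root a b ∧ a = 1 ∧
      (∀ x, b x = if x = i ∨ x = j ∨ x = k then 1 else 0) ∧
      ∀ v : ℝ × (Fin n → ℝ), val a b v = v.1 - v.2 i - v.2 j - v.2 k :=
    ⟨_, _, Root.line i j k ij ik jk, rfl, fun _ => rfl, fun v => val_line ij ik jk v⟩
  have r2 := Root.refl l m o lm lo mo _ _ r1
  have e1 : b0 l = 0 := by
    rw [hb0]
    exact if_neg (by rintro (h | h | h) <;> simp_all)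
  have e2 : b0 m = 0 := by
    rw [hb0]
    exact if_neg (by rintro (h | h | h) <;> simp_all)
  have e3 : b0 o = 0 := by
    rw [hb0]
    exact if_neg (by rintro (h | h | h) <;> simp_all)
  refine ⟨_, _, r2, ?_, ?_, ?_⟩
  · rw [e1, e2, e3, ha0]
    norm_num
  · intro x
    rw [e1, e2, e3, ha0, hb0]
    by_cases c1 : x = i ∨ x = j ∨ x = k
    · have c2 : ¬ (x = l ∨ x = m ∨ x = o) := by
        rcases c1 with rfl | rfl | rfl <;> simp_all
      rw [if_pos c1, if_neg c2, if_pos (by tauto)]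
      norm_num
    · by_cases c2 : x = l ∨ x = m ∨ x = o
      · rw [if_neg c1, if_pos c2, if_pos (by tauto)]
        norm_num
      · rw [if_neg c1, if_neg c2, if_neg (by tauto)]
        norm_num
  · intro v
    rw [val_refl lm lo mo, hv0, e1, e2, e3, ha0]
    push_cast
    ring

/-- The cubics through eight points, with a double point at one of them. -/
theorem cubic_root {n : ℕ} {i j k l m o p q : Fin n} (h : [i, j, k, l, m, o, p, q].Nodup) :
    ∃ (a : ℤ) (b : Fin n → ℤ), Root a b ∧ a = 3 ∧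
      ∀ v : ℝ × (Fin n → ℝ), val a b v =
        3 * v.1 - (v.2 i + v.2 j + v.2 k + v.2 l + v.2 m + v.2 o + v.2 p + v.2 q) - v.2 i := by
  have h' : [i, j, k, l, m, o].Nodup := by
    exact h.sublist (List.sublist_append_left [i, j, k, l, m, o] [p, q])
  obtain ⟨a, b, hab, ha, hb, hv⟩ := conic_root h'
  simp only [List.nodup_cons, List.mem_cons, List.not_mem_nil, or_false, not_or,
    List.nodup_nil, and_true, not_false_eq_true] at h
  obtain ⟨⟨ij, ik, il, im, io, ip, iq⟩, ⟨jk, jl, jm, jo, jp, jq⟩, ⟨kl, km, ko, kp, kq⟩,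
    ⟨lm, lo, lp, lq⟩, ⟨mo, mp, mq⟩, ⟨op, oq⟩, pq⟩ := h
  have r2 := Root.refl i p q ip iq pq _ _ hab
  have e1 : b i = 1 := by
    rw [hb, if_pos (Or.inl rfl)]
  have e2 : b p = 0 := by
    rw [hb]
    exact if_neg (by rintro (h | h | h | h | h | h) <;> simp_all)
  have e3 : b q = 0 := by
    rw [hb]
    exact if_neg (by rintro (h | h | h | h | h | h) <;> simp_all)
  refine ⟨_, _, r2, ?_, ?_⟩
  · rw [e1, e2, e3, ha]
    norm_num
  · intro v
    rw [val_refl ip iq pq, hv, e1, e2, e3, ha]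
    push_cast
    ring

theorem Gap.pts {n : ℕ} {v : ℝ × (Fin n → ℝ)} (h : Gap v) {i j : Fin n} (hij : i ≠ j) :
    Gp (-dot v v) (v.2 i - v.2 j) := by
  have := h _ _ (Root.pts j i (Ne.symm hij))
  rwa [val_pts (Ne.symm hij)] at this

theorem Gap.line {n : ℕ} {v : ℝ × (Fin n → ℝ)} (h : Gap v) {i j k : Fin n} (hij : i ≠ j)
    (hik : i ≠ k) (hjk : j ≠ k) : Gp (-dot v v) (v.1 - v.2 i - v.2 j - v.2 k) := by
  have := h _ _ (Root.line i j k hij hik hjk)
  rwa [val_line hij hik hjk] at this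

theorem Gap.conic {n : ℕ} {v : ℝ × (Fin n → ℝ)} (h : Gap v) {i j k l m o : Fin n}
    (hd : [i, j, k, l, m, o].Nodup) :
    Gp (-dot v v) (2 * v.1 - (v.2 i + v.2 j + v.2 k + v.2 l + v.2 m + v.2 o)) := by
  obtain ⟨a, b, hab, -, -, hv⟩ := conic_root hd
  have := h _ _ hab
  rwa [hv] at this

theorem Gap.cubic {n : ℕ} {v : ℝ × (Fin n → ℝ)} (h : Gap v) {i j k l m o p q : Fin n}
    (hd : [i, j, k, l, m, o, p, q].Nodup) :
    Gp (-dot v v) (3 * v.1 -
      (v.2 i + v.2 j + v.2 k + v.2 l + v.2 m + v.2 o + v.2 p + v.2 q) - v.2 i) := by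
  obtain ⟨a, b, hab, -, hv⟩ := cubic_root hd
  have := h _ _ hab
  rwa [hv] at this

end Pool.Agent.H902
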