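import Pool.Agent.H902.Vg
import Pool.Graph.R_pool_sql_team_seeded_63374d34.Results.MP_309968_ag.BilinearIrrationalRays

set_option autoImplicit false

/-!
# Rays: composition, quadratic transformations, and the pencils of rational curves
-/

namespace Pool.Agent.H902

open MvPolynomial Pool.Agent.TH167.SHDefs Pool.Agent.X157.W
open Pool.Agent.H350R3 Pool.Agent.H350R3.GR Pool.Agent.H932R3
open Pool.Agent.R355.ConeAct (curveClasses curvCone dot refl del ind refl_fst refl_snd nef_of_gen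
  nef_carries Carries dot_refl kap)
open Pool.Agent.Results.MP_309968_ag.BoundaryRays (cone_le noForm_ext)

/-- The inequality for a set of at least nine points. -/
theorem fib_sub {n : ℕ} {P : Fin n → Fin 2 → ℂ} (hP : Gen P) {G : MvPolynomial (Fin 3) ℂ}
    {d : ℕ} {w : Fin n → ℕ} (hG : Curve P G d w) {T : Finset (Fin n)} (hT : 9 ≤ T.card)
    {p : Fin n} (hp : p ∈ T) :
    4 * ∑ i ∈ T.erase p, (w i : ℝ) + ((T.card : ℝ) - 5) * w p ≤ ((T.card : ℝ) + 3) * d := by
  classical
  obtain ⟨r, hr⟩ : ∃ r, T.card = r + 9 := ⟨T.card - 9, by omega⟩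
  obtain ⟨σ, hσ, hσT, hσs, hσsum⟩ := enum hr
  obtain ⟨p', rfl⟩ := hσs p hp
  have hP' : Gen fun i => P (σ i) := by
    have h1 : AlgebraicIndependent ℚ (fun ij : Fin n × Fin 2 => P ij.1 ij.2) := hP
    exact h1.comp (fun ij : Fin (r + 9) × Fin 2 => (σ ij.1, ij.2)) (by
      intro a b h
      simp only [Prod.mk.injEq] at h
      exact Prod.ext (hσ h.1) h.2)
  have hG' : Curve (fun i => P (σ i)) G d (fun i => w (σ i)) :=
    ⟨hG.irreducible, hG.homogeneous, fun i => hG.mult (σ i)⟩
  have h1 := fib_all hP' hG' p'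
  have h2 : ∑ i ∈ Finset.univ.erase p', (w (σ i) : ℝ) = ∑ i ∈ T.erase (σ p'), (w i : ℝ) := by
    have h3 := hσsum fun i => (w i : ℝ)
    have h4 := Finset.add_sum_erase Finset.univ (fun i => (w (σ i) : ℝ)) (Finset.mem_univ p')
    have h5 := Finset.add_sum_erase T (fun i => (w i : ℝ)) hp
    linarith
  rw [h2] at h1
  rw [hr]
  push_cast
  linarith

/-- The class `x F + y (-K_T)`, where `F` is the class of the lines through the point `p` and
`-K_T` the class of the cubics through the points of `T`. -/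
noncomputable def pl {n : ℕ} (T : Finset (Fin n)) (p : Fin n) (x y : ℝ) : ℝ × (Fin n → ℝ) :=
  (x + 3 * y, fun i => (if i = p then x else 0) + if i ∈ T then y else 0)

theorem dot_pl {n : ℕ} (T : Finset (Fin n)) (p : Fin n) (x y : ℝ) (v : ℝ × (Fin n → ℝ)) :
    dot (pl T p x y) v = x * (v.1 - v.2 p) + y * (3 * v.1 - ∑ i ∈ T, v.2 i) := by
  classical
  unfold dot pl
  simp only
  have h1 : ∀ l, ((if l = p then x else 0) + if l ∈ T then y else 0) * v.2 l =
      (if l = p then x * v.2 p else 0) + (if l ∈ T then y * v.2 l else 0) := by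
    intro l
    by_cases h : l = p
    · subst h
      split_ifs <;> ring
    · rw [if_neg h, if_neg h]
      split_ifs <;> ring
  rw [Finset.sum_congr rfl fun l _ => h1 l, Finset.sum_add_distrib,
    Finset.sum_ite_eq' Finset.univ, Finset.sum_ite_mem, Finset.univ_inter, ← Finset.mul_sum]
  simp only [Finset.mem_univ, if_true]
  ring

theorem dot_pl_self {n : ℕ} {T : Finset (Fin n)} {p : Fin n} (hp : p ∈ T) (x y : ℝ) :
    dot (pl T p x y) (pl T p x y) = y * (4 * x - ((T.card : ℝ) - 9) * y) := by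
  classical
  rw [dot_pl]
  have h1 : (pl T p x y).2 p = x + y := by
    unfold pl
    simp [hp]
  have h2 : ∑ i ∈ T, (pl T p x y).2 i = x + T.card * y := by
    unfold pl
    simp only
    rw [Finset.sum_add_distrib, Finset.sum_ite_eq' T, if_pos hp, Finset.sum_congr rfl
      (g := fun _ => y) (fun i hi => if_pos hi), Finset.sum_const, nsmul_eq_mul]
  rw [h1, h2]
  show x * (x + 3 * y - (x + y)) + y * (3 * (x + 3 * y) - (x + T.card * y)) = _
  ring

theorem dot_exc {n : ℕ} (D : ℝ × (Fin n → ℝ)) (j : Fin n) :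
    dot D ((0 : ℝ), (Pi.single j (-1 : ℝ) : Fin n → ℝ)) = D.2 j := by
  classical
  unfold dot
  simp only
  rw [Finset.sum_eq_single j]
  · rw [Pi.single_eq_same]
    ring
  · intro l _ hl
    rw [Pi.single_eq_of_ne hl]
    ring
  · intro h
    exact absurd (Finset.mem_univ j) h

/-- Every class of the plane spanned by `F` and `K_T` which lies in the positive cone is nef. -/
theorem pl_nef {n : ℕ} {P : Fin n → Fin 2 → ℂ} (hP : Gen P) {T : Finset (Fin n)}
    (hT : 9 ≤ T.card) {p : Fin n} (hp : p ∈ T) {x y : ℝ} (h1 : 0 ≤ (pl T p x y).1)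
    (h2 : 0 ≤ dot (pl T p x y) (pl T p x y)) :
    ∀ z ∈ curvCone P, 0 ≤ dot (pl T p x y) z := by
  classical
  rw [dot_pl_self hp] at h2
  have hc : (9 : ℝ) ≤ T.card := by exact_mod_cast hT
  have h1' : 0 ≤ x + 3 * y := h1
  -- the signs
  have hxy : 0 ≤ y ∧ 0 ≤ x ∧ ((T.card : ℝ) - 9) * y ≤ 4 * x := by
    rcases lt_trichotomy y 0 with hy | hy | hy
    · exfalso
      have h3 : 4 * x - ((T.card : ℝ) - 9) * y ≤ 0 := by
        by_contra hcon
        push Not at hcon
        have := mul_neg_of_neg_of_pos hy hcon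
        linarith
      nlinarith
    · subst hy
      refine ⟨le_rfl, by linarith, by linarith⟩
    · have h3 : 0 ≤ 4 * x - ((T.card : ℝ) - 9) * y := nonneg_of_mul_nonneg_right h2 hy
      refine ⟨hy.le, by nlinarith, by linarith⟩
  obtain ⟨hy, hx, hxy⟩ := hxy
  refine nef_of_gen ?_
  rintro v (⟨G, d, w, hG, rfl⟩ | ⟨j, rfl⟩)
  · rw [dot_pl]
    simp only
    have h3 := fib_sub hP hG hT hp
    have h4 := Finset.add_sum_erase T (fun i => (w i : ℝ)) hp
    have h5 : (w p : ℝ) ≤ d := by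
      -- from the inequality of Xu and Ein-Lazarsfeld
      have hd : (1 : ℝ) ≤ d := by exact_mod_cast curve_pos hG
      obtain ⟨g1, g2, g3⟩ := Pool.Agent.TH167.SH.curve_iff.1 hG
      rcases Nat.eq_zero_or_pos (w p) with h0 | h0
      · rw [h0]
        push_cast
        linarith
      · have h6 := Pool.Agent.R355.NegOrb.xu hP g1 g2 g3 h0
        have h7 : w p ^ 2 ≤ ∑ j, w j ^ 2 :=
          Finset.single_le_sum (f := fun j => w j ^ 2) (fun _ _ => Nat.zero_le _)
            (Finset.mem_univ p)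
        by_contra hcon
        push Not at hcon
        obtain ⟨t, ht⟩ : ∃ t, w p = d + 1 + t := by
          have : d < w p := by exact_mod_cast hcon
          exact ⟨w p - (d + 1), by omega⟩
        have hd0 := curve_pos hG
        have h9 : w p ^ 2 ≤ d ^ 2 + w p := h7.trans h6
        rw [ht] at h9
        nlinarith
    have h6 : 0 ≤ ((d : ℝ) - w p) * (4 * x - ((T.card : ℝ) - 9) * y) :=
      mul_nonneg (by linarith) (by linarith)
    have h7 : 0 ≤ y * (((T.card : ℝ) + 3) * d -
        (4 * ∑ i ∈ T.erase p, (w i : ℝ) + ((T.card : ℝ) - 5) * w p)) :=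
      mul_nonneg hy (by linarith)
    rw [← h4]
    nlinarith
  · rw [dot_exc]
    unfold pl
    simp only
    split_ifs <;> linarith

/-! ## Rays -/

/-- **The pencil of lines.** -/
theorem conic_nf (r : ℕ) : NB.Nf ℂ (fun i : Fin (r + 9) => if i = 0 then (r : ℝ) + 4 else 4)
    ((r : ℝ) + 12) := by
  classical
  obtain ⟨P, hP, -⟩ := exists_vg (n := r + 9) (fun _ => 1) fun _ => one_ne_zero
  refine nf_of_curves (P := P) (fun i => ?_) fun G d w hG => ?_
  · split_ifs
    · positivity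
    · norm_num
  · have h1 := fib_all hP hG 0
    have h2 := Finset.add_sum_erase Finset.univ
      (fun i => (if i = 0 then (r : ℝ) + 4 else 4) * (w i : ℝ)) (Finset.mem_univ (0 : Fin (r + 9)))
    rw [← h2]
    simp only [if_true]
    have h3 : ∑ i ∈ Finset.univ.erase (0 : Fin (r + 9)),
        (if i = 0 then (r : ℝ) + 4 else 4) * (w i : ℝ) =
        4 * ∑ i ∈ Finset.univ.erase (0 : Fin (r + 9)), (w i : ℝ) := by
      rw [Finset.mul_sum]
      refine Finset.sum_congr rfl fun i hi => ?_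
      rw [if_neg (Finset.ne_of_mem_erase hi)]
    rw [h3]
    linarith

theorem conic_list (r : ℕ) : NB.Nf ℂ (((r : ℝ) + 4) :: List.replicate (r + 8) 4).get
    ((r : ℝ) + 12) := by
  have hl : r + 9 = (((r : ℝ) + 4) :: List.replicate (r + 8) 4).length := by simp
  refine nf_tr (finCongr hl) (fun i => ?_) (conic_nf r)
  refine Fin.cases ?_ (fun j => ?_) i
  · simp
  · simp

/-- Gluing, with nonnegative weights. -/
theorem nf_cons_glue {L L' : List ℝ} {w c : ℝ} (h₂ : ∀ t ∈ L, 0 ≤ t) (hw : 0 < w)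
    (h : NB.Nf ℂ (w :: L).get c) (h' : NB.Nf ℂ L'.get w) : NB.Nf ℂ (L' ++ L).get c := by
  refine nf_append ?_
  have e1 : NB.Nf ℂ (Sum.elim (Sum.elim (fun i : Empty => i.elim) (fun _ : Unit => w)) L.get) c := by
    have h3 : NB.Nf ℂ (Sum.elim [w].get L.get) c := nf_append' (L₁ := [w]) h
    refine nf_tr (Equiv.sumCongr ((Equiv.ofUnique (Fin 1) Unit).trans
      (Equiv.emptySum Empty Unit).symm) (Equiv.refl _)) ?_ h3
    rintro (i | i)
    · show Sum.elim (fun i : Empty => i.elim) (fun _ : Unit => w)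
        ((Equiv.emptySum Empty Unit).symm ((Equiv.ofUnique (Fin 1) Unit) i)) = [w].get i
      simp
    · rfl
  have e2 := nf_glue (K := ℂ) (fun i : Empty => i.elim)
    (fun i => (h₂ _ (List.get_mem L i))) hw e1 h'
  refine nf_tr (Equiv.sumCongr (Equiv.emptySum Empty (Fin L'.length)) (Equiv.refl _)) ?_ e2
  rintro ((i | i) | i)
  · exact i.elim
  · rfl
  · rfl

theorem perm_equiv {L L' : List ℝ} (h : L.Perm L') :
    ∃ σ : Fin L.length ≃ Fin L'.length, ∀ i, L'.get (σ i) = L.get i := by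
  induction h with
  | nil => exact ⟨Equiv.refl _, fun i => rfl⟩
  | @cons x l₁ l₂ _ ih =>
    obtain ⟨σ, hσ⟩ := ih
    refine ⟨⟨Fin.cons 0 fun i => (σ i).succ, Fin.cons 0 fun i => (σ.symm i).succ, ?_, ?_⟩, ?_⟩
    · intro i
      refine Fin.cases ?_ (fun j => ?_) i
      · rfl
      · simp
    · intro i
      refine Fin.cases ?_ (fun j => ?_) i
      · rfl
      · simp
    · intro i
      refine Fin.cases ?_ (fun j => ?_) i
      · rfl
      · exact hσ j
  | swap x y l =>
    refine ⟨Equiv.swap 0 1, fun i => ?_⟩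
    refine Fin.cases ?_ (fun j => ?_) i
    · rw [Equiv.swap_apply_left]
      rfl
    · refine Fin.cases ?_ (fun k => ?_) j
      · have h : (Fin.succ 0 : Fin (l.length + 2)) = 1 := rfl
        show (x :: y :: l).get (Equiv.swap 0 1 (Fin.succ 0 : Fin (l.length + 2))) = _
        rw [h, Equiv.swap_apply_right]
        rfl
      · rw [Equiv.swap_apply_of_ne_of_ne]
        · rfl
        · exact Fin.succ_ne_zero _
        · intro h
          have h2 := congrArg Fin.val h
          simp at h2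
  | trans h1 h2 ih1 ih2 =>
    obtain ⟨σ, hσ⟩ := ih1
    obtain ⟨τ, hτ⟩ := ih2
    exact ⟨σ.trans τ, fun i => by rw [Equiv.trans_apply, hτ, hσ]⟩

theorem nf_perm {L L' : List ℝ} {c : ℝ} (h : L.Perm L') (hL : NB.Nf ℂ L.get c) :
    NB.Nf ℂ L'.get c := by
  obtain ⟨σ, hσ⟩ := perm_equiv h
  exact nf_tr σ hσ hL

/-- From the weights to very general points. -/
theorem nef_of_nf {n : ℕ} {f : ℕ → MvPolynomial (Fin n × Fin 2) ℂ}
    (hf' : ∀ P : Fin n → Fin 2 → ℂ,
      (∀ j, MvPolynomial.eval (fun q : Fin n × Fin 2 => P q.1 q.2) (f j) ≠ 0) →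
      ∀ (d : ℕ) (w : Fin n → ℕ), (∃ P0 : Fin n → Fin 2 → ℂ, NoForm (ptJ P0 w) d) →
        NoForm (ptJ P w) d) {P : Fin n → Fin 2 → ℂ}
    (hP : ∀ j, MvPolynomial.eval (fun q : Fin n × Fin 2 => P q.1 q.2) (f j) ≠ 0)
    {L : List ℝ} {c : ℝ} (hL : ∀ t ∈ L, 0 ≤ t) (hNf : NB.Nf ℂ L.get c)
    {g : Fin L.length → Fin n} (hg : Function.Injective g) :
    ∀ x ∈ curvCone P, ∑ j, L.get j * x.2 (g j) ≤ c * x.1 := by
  classical
  rw [cone_eq]
  refine cone_le (fun j => hL _ (List.get_mem L j)) fun F e m hF he hF0 hm => ?_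
  by_contra hcon
  push Not at hcon
  obtain ⟨x, hx⟩ := hNf (fun j => m (g j)) e (by linarith)
  refine hF0 (hf' P hP e m ⟨_, noForm_ext hg hx⟩ F hF ?_)
  unfold ptJ vIdeal
  rw [Ideal.mem_iInf]
  intro i
  exact mem_of_support (p := P i) (hm i)

/-- **Quadratic transformations.** -/
theorem nf_cremona {x y z c : ℝ} {L : List ℝ} (h0 : ∀ t ∈ x :: y :: z :: L, 0 ≤ t)
    (h1 : 0 ≤ c - y - z) (h2 : 0 ≤ c - x - z) (h3 : 0 ≤ c - x - y)
    (h : NB.Nf ℂ (x :: y :: z :: L).get c) :
    NB.Nf ℂ ((c - y - z) :: (c - x - z) :: (c - x - y) :: L).get (2 * c - x - y - z) := by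
  classical
  obtain ⟨f, hf, hf'⟩ := exists_conds_all (K := ℂ) (L.length + 3)
  obtain ⟨P, hPg, hP⟩ := exists_vg f hf
  obtain ⟨D, hD⟩ : ∃ D : ℝ × (Fin (L.length + 3) → ℝ), D = (c, (x :: y :: z :: L).get) :=
    ⟨_, rfl⟩
  have hnef : ∀ v ∈ curvCone P, 0 ≤ dot D v := by
    intro v hv
    have h4 := nef_of_nf (L := x :: y :: z :: L) hf' hP h0 h (g := id)
      Function.injective_id v hv
    rw [hD]
    unfold dot
    simp only [id] at h4 ⊢
    exact sub_nonneg.2 h4
  have n10 : (Fin.succ 0 : Fin (L.length + 3)) ≠ 0 := Fin.succ_ne_zero _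
  have n20 : (Fin.succ (Fin.succ 0) : Fin (L.length + 3)) ≠ 0 := Fin.succ_ne_zero _
  have n21 : (Fin.succ (Fin.succ 0) : Fin (L.length + 3)) ≠ Fin.succ 0 :=
    fun h => Fin.succ_ne_zero _ (Fin.succ_injective _ h)
  obtain ⟨i, hi, hi0, hi1, hi2⟩ : ∃ i : Fin 3 → Fin (L.length + 3), Function.Injective i ∧
      i 0 = 0 ∧ i 1 = Fin.succ 0 ∧ i 2 = Fin.succ (Fin.succ 0) :=
    ⟨![0, Fin.succ 0, Fin.succ (Fin.succ 0)], inj3 n10.symm n20.symm n21.symm, rfl, rfl, rfl⟩
  have hcar : Carries D (refl i D) := Relation.ReflTransGen.single ⟨_, hi, rfl⟩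
  have hnef' := (nef_carries hPg hcar hnef).1
  have hdel : del i D = c - x - y - z := by
    unfold del
    rw [hD, hi0, hi1, hi2]
    rfl
  refine nf_of_curves (k := L.length + 3) (P := P) (fun i => ?_) fun G d w hG => ?_
  · refine Fin.cases ?_ (fun i => Fin.cases ?_ (fun i => Fin.cases ?_ (fun i => ?_) i) i) i
    · exact h1
    · exact h2
    · exact h3
    · exact h0 _ (by simp)
  · have h4 := hnef' _ (subset_closure (Submodule.subset_span
      (Or.inl ⟨G, d, w, hG, rfl⟩ : ((d : ℝ), fun i => (w i : ℝ)) ∈ curveClasses P)))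
    unfold dot at h4
    rw [refl_fst, hdel] at h4
    simp only at h4
    have h5 : ∀ l, (refl i D).2 l =
        ((c - y - z) :: (c - x - z) :: (c - x - y) :: L).get l := by
      intro l
      rw [refl_snd, hdel, hD]
      unfold ind
      rw [hi0, hi1, hi2]
      refine Fin.cases ?_ (fun l => Fin.cases ?_ (fun l => Fin.cases ?_ (fun l => ?_) l) l) l
      · rw [if_pos (Or.inl rfl)]
        show x + (c - x - y - z) * 1 = c - y - z
        ring
      · rw [if_pos (Or.inr (Or.inl rfl))]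
        show y + (c - x - y - z) * 1 = c - x - z
        ring
      · rw [if_pos (Or.inr (Or.inr rfl))]
        show z + (c - x - y - z) * 1 = c - x - y
        ring
      · rw [if_neg]
        · show L.get l + (c - x - y - z) * 0 = L.get l
          ring
        · rintro (h | h | h)
          · exact Fin.succ_ne_zero _ h
          · exact Fin.succ_ne_zero _ (Fin.succ_injective _ h)
          · exact Fin.succ_ne_zero _ (Fin.succ_injective _ (Fin.succ_injective _ h))
    rw [Finset.sum_congr rfl fun l _ => by rw [h5 l]] at h4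
    have e : D.1 = c := by rw [hD]
    rw [e] at h4
    have h6 : (2 * c - x - y - z) * (d : ℝ) = (c + (c - x - y - z)) * d := by ring
    rw [h6]
    exact sub_nonneg.1 h4

end Pool.Agent.H902
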