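import Pool.Agent.H902.Frame2

set_option autoImplicit false

/-!
# Sets of six, seven, eight and nine points
-/

namespace Pool.Agent.H902

open MvPolynomial Pool.Agent.W609 Pool.Agent.W609.CR Pool.Agent.TH167 Pool.Agent.TH167.SHDefs
  Pool.Agent.TH167.SH Pool.Agent.X157.W
open Pool.Agent.R355.ConeAct (curveClasses curvCone dot refl gen_refl dot_refl refl_refl del ind
  refl_fst refl_snd ind_base)

theorem enum {n r : ℕ} {T : Finset (Fin n)} (h : T.card = r) :
    ∃ σ : Fin r → Fin n, Function.Injective σ ∧ (∀ i, σ i ∈ T) ∧ (∀ j ∈ T, ∃ i, σ i = j) ∧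
      ∀ f : Fin n → ℝ, ∑ i, f (σ i) = ∑ j ∈ T, f j := by
  obtain ⟨e, he⟩ : ∃ e : Fin r ≃ T, e = (T.equivFinOfCardEq h).symm := ⟨_, rfl⟩
  refine ⟨fun i => e i, fun a b hab => e.injective (Subtype.ext hab), fun i => (e i).2,
    fun j hj => ⟨e.symm ⟨j, hj⟩, by simp⟩, fun f => ?_⟩
  rw [← Finset.sum_coe_sort T f]
  exact Equiv.sum_comp e fun i : T => f i

section

variable {n r : ℕ} {v : ℝ × (Fin n → ℝ)} {σ : Fin r → Fin n}

theorem Gap.spts (h : Gap v) (hσ : Function.Injective σ) (i j : Fin r) (hij : i ≠ j) :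
    Gp (-dot v v) (v.2 (σ i) - v.2 (σ j)) := h.pts (hσ.ne hij)

theorem Gap.sline (h : Gap v) (hσ : Function.Injective σ) (i j l : Fin r) (hij : i ≠ j)
    (hil : i ≠ l) (hjl : j ≠ l) :
    Gp (-dot v v) (v.1 - v.2 (σ i) - v.2 (σ j) - v.2 (σ l)) :=
  h.line (hσ.ne hij) (hσ.ne hil) (hσ.ne hjl)

theorem Gap.sconic (h : Gap v) (hσ : Function.Injective σ) (i j l m o p : Fin r)
    (hd : [i, j, l, m, o, p].Nodup) :
    Gp (-dot v v) (2 * v.1 - (v.2 (σ i) + v.2 (σ j) + v.2 (σ l) + v.2 (σ m) + v.2 (σ o) +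
      v.2 (σ p))) := h.conic (hd.map hσ)

theorem Gap.scubic (h : Gap v) (hσ : Function.Injective σ) (i j l m o p q t : Fin r)
    (hd : [i, j, l, m, o, p, q, t].Nodup) :
    Gp (-dot v v) (3 * v.1 - (v.2 (σ i) + v.2 (σ j) + v.2 (σ l) + v.2 (σ m) + v.2 (σ o) +
      v.2 (σ p) + v.2 (σ q) + v.2 (σ t)) - v.2 (σ i)) := h.cubic (hd.map hσ)

end

variable {n : ℕ} {v : ℝ × (Fin n → ℝ)}

theorem gap8 (hv : Gap v) (hneg : dot v v < 0) {T : Finset (Fin n)} (hT : T.card = 8) :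
    (∀ i ∈ T, v.1 = 3 * v.2 i) ∨
      2 * (-dot v v) ≤ (3 * v.1 - ∑ i ∈ T, v.2 i) ^ 2 - v.1 ^ 2 + ∑ i ∈ T, v.2 i ^ 2 := by
  obtain ⟨σ, hσ, -, h2, h3⟩ := enum hT
  have h := e8 (D := v.1) (W := fun i => v.2 (σ i)) (by linarith : 0 < -dot v v) (hv.spts hσ)
    (hv.sline hσ) (hv.sconic hσ) (hv.scubic hσ)
  rw [h3 v.2, h3 fun i => v.2 i ^ 2] at h
  refine h.imp (fun h i hi => ?_) id
  obtain ⟨j, rfl⟩ := h2 i hi
  exact h j

theorem gap7 (hv : Gap v) (hneg : dot v v < 0) {T : Finset (Fin n)} (hT : T.card = 7) :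
    (∀ i ∈ T, v.1 = 3 * v.2 i) ∨
      3 * (-dot v v) ≤ (3 * v.1 - ∑ i ∈ T, v.2 i) ^ 2 - 2 * v.1 ^ 2 +
        2 * ∑ i ∈ T, v.2 i ^ 2 := by
  obtain ⟨σ, hσ, -, h2, h3⟩ := enum hT
  have h := e7 (D := v.1) (W := fun i => v.2 (σ i)) (by linarith : 0 < -dot v v) (hv.spts hσ)
    (hv.sline hσ) (hv.sconic hσ)
  rw [h3 v.2, h3 fun i => v.2 i ^ 2] at h
  refine h.imp (fun h i hi => ?_) id
  obtain ⟨j, rfl⟩ := h2 i hi
  exact h j

theorem gap6 (hv : Gap v) (hneg : dot v v < 0) {T : Finset (Fin n)} (hT : T.card = 6) :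
    (∀ i ∈ T, v.1 = 3 * v.2 i) ∨
      4 * (-dot v v) ≤ (3 * v.1 - ∑ i ∈ T, v.2 i) ^ 2 - 3 * v.1 ^ 2 +
        3 * ∑ i ∈ T, v.2 i ^ 2 := by
  obtain ⟨σ, hσ, -, h2, h3⟩ := enum hT
  have h := e6 (D := v.1) (W := fun i => v.2 (σ i)) (by linarith : 0 < -dot v v) (hv.spts hσ)
    (hv.sline hσ) (hv.sconic hσ)
  rw [h3 v.2, h3 fun i => v.2 i ^ 2] at h
  refine h.imp (fun h i hi => ?_) id
  obtain ⟨j, rfl⟩ := h2 i hi
  exact h j

theorem gapD (hv : Gap v) (hneg : dot v v < 0) {M : Finset (Fin n)} {p : Fin n} (hp : p ∉ M)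
    (hM : 4 ≤ M.card) :
    (∀ i ∈ M, 2 * v.2 i = v.1 - v.2 p) ∨
      4 * (-dot v v) ≤ ∑ i ∈ M, (2 * v.2 i - (v.1 - v.2 p)) ^ 2 := by
  classical
  refine dm (s := v.1 - v.2 p) (W := v.2) (M := M) (by linarith : 0 < -dot v v) hM
    (fun i _ j _ hij => hv.pts hij) fun i hi j hj hij => ?_
  have e : v.1 - v.2 p - v.2 i - v.2 j = v.1 - v.2 p - v.2 i - v.2 j := rfl
  refine hv.line (i := p) (j := i) (k := j) ?_ ?_ hij
  · rintro rfl
    exact hp hi
  · rintro rfl
    exact hp hj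

/-! ## Nine points -/

/-- The class of the cubics through the points of `T`. -/
noncomputable def cub (T : Finset (Fin n)) : ℝ × (Fin n → ℝ) :=
  (3, fun i => if i ∈ T then 1 else 0)

theorem dot_cub (T : Finset (Fin n)) (v : ℝ × (Fin n → ℝ)) :
    dot (cub T) v = 3 * v.1 - ∑ i ∈ T, v.2 i := by
  classical
  unfold dot cub
  simp only
  congr 1
  rw [Finset.sum_congr rfl (g := fun l => if l ∈ T then v.2 l else 0) (fun l _ => by
    split_ifs <;> ring)]
  rw [Finset.sum_ite_mem, Finset.univ_inter]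

theorem refl_cub {T : Finset (Fin n)} {i : Fin 3 → Fin n} (h : ∀ a, i a ∈ T) :
    refl i (cub T) = cub T := by
  have hd : del i (cub T) = 0 := by
    unfold del cub
    simp only
    rw [if_pos (h 0), if_pos (h 1), if_pos (h 2)]
    norm_num
  refine Prod.ext ?_ ?_
  · rw [refl_fst, hd, add_zero]
  · funext l
    rw [refl_snd, hd, zero_mul, add_zero]

theorem dot_cub_refl {T : Finset (Fin n)} {i : Fin 3 → Fin n} (hi : Function.Injective i)
    (h : ∀ a, i a ∈ T) (v : ℝ × (Fin n → ℝ)) : dot (cub T) (refl i v) = dot (cub T) v := by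
  have h1 := dot_refl hi (cub T) v
  rwa [refl_cub h] at h1

theorem degree_nat {P : Fin n → Fin 2 → ℂ} (hv : v ∈ curveClasses P) : ∃ d : ℕ, v.1 = d := by
  rcases hv with ⟨G, d, w, hG, rfl⟩ | ⟨j, rfl⟩
  · exact ⟨d, rfl⟩
  · exact ⟨0, by norm_num⟩

/-- The condition of the second case. -/
def Dvd9 (T : Finset (Fin n)) (y : ℝ) (v : ℝ × (Fin n → ℝ)) : Prop :=
  (∀ i ∈ T, ∃ m : ℤ, v.1 - 3 * v.2 i = m * y) ∧ ∀ i ∈ T, ∀ j ∈ T, ∃ m : ℤ, v.2 i - v.2 j = m * y

theorem Dvd9.refl {T : Finset (Fin n)} {y : ℝ} {i : Fin 3 → Fin n} (h : ∀ a, i a ∈ T)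
    {v : ℝ × (Fin n → ℝ)} (hv : Dvd9 T y v) : Dvd9 T y (refl i v) := by
  obtain ⟨h1, h2⟩ := hv
  have hd : ∃ m : ℤ, del i v = m * y := by
    obtain ⟨a, ha⟩ := h1 (i 0) (h 0)
    obtain ⟨b, hb⟩ := h2 (i 0) (h 0) (i 1) (h 1)
    obtain ⟨c, hc⟩ := h2 (i 0) (h 0) (i 2) (h 2)
    refine ⟨a + b + c, ?_⟩
    unfold del
    push_cast
    linear_combination ha + hb + hc
  obtain ⟨m, hm⟩ := hd
  have hind : ∀ l, ∃ t : ℤ, ind i l = t := by
    intro l
    unfold ind
    split_ifs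
    · exact ⟨1, by norm_num⟩
    · exact ⟨0, by norm_num⟩
  refine ⟨fun l hl => ?_, fun l hl l' hl' => ?_⟩
  · obtain ⟨a, ha⟩ := h1 l hl
    obtain ⟨t, ht⟩ := hind l
    refine ⟨a + m - 3 * m * t, ?_⟩
    rw [refl_fst, refl_snd, hm, ht]
    push_cast
    linear_combination ha
  · obtain ⟨a, ha⟩ := h2 l hl l' hl'
    obtain ⟨t, ht⟩ := hind l
    obtain ⟨t', ht'⟩ := hind l'
    refine ⟨a + m * t - m * t', ?_⟩
    rw [refl_snd, refl_snd, hm, ht, ht']
    push_cast
    linear_combination ha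

theorem gap9 {P : Fin n → Fin 2 → ℂ} (hP : Gen P) {T : Finset (Fin n)} (hT : T.card = 9) :
    ∀ (N : ℕ) (v : ℝ × (Fin n → ℝ)), v ∈ curveClasses P → v.1 < N → dot v v < 0 →
      4 * (-dot v v) ≤ (dot (cub T) v) ^ 2 ∨
        ((dot (cub T) v = 0 ∨ -dot v v ≤ (dot (cub T) v) ^ 2) ∧ Dvd9 T (dot (cub T) v) v) := by
  classical
  intro N
  induction N with
  | zero =>
    intro v hv hN hneg
    obtain ⟨d, hd⟩ := degree_nat hv
    rw [hd] at hN
    exact absurd hN (by simp)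
  | succ N ih =>
    intro v hv hN hneg
    obtain ⟨d, hd⟩ := degree_nat hv
    by_cases hst : ∃ i : Fin 3 → Fin n, Function.Injective i ∧ (∀ a, i a ∈ T) ∧ del i v < 0
    · obtain ⟨i, hi, hiT, hdel⟩ := hst
      have hv' : refl i v ∈ curveClasses P := gen_refl hP hi hv
      obtain ⟨d', hd'⟩ := degree_nat hv'
      have h1 : (refl i v).1 < N := by
        have h2 : (refl i v).1 < v.1 := by
          rw [refl_fst]
          linarith
        rw [hd', hd] at h2
        have h3 : d' < d := by exact_mod_cast h2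
        rw [hd] at hN
        have h4 : d < N + 1 := by exact_mod_cast hN
        rw [hd']
        have h5 : d' < N := by omega
        exact_mod_cast h5
      have h2 := ih (refl i v) hv' h1 (by rw [dot_refl hi]; exact hneg)
      rw [dot_refl hi, dot_cub_refl hi hiT] at h2
      refine h2.imp id fun h3 => ⟨h3.1, ?_⟩
      have h4 := h3.2.refl (i := i) hiT
      rwa [refl_refl] at h4
    · push Not at hst
      have hg : Gap v := gap_class hP hv hneg
      obtain ⟨σ0, hσ0, hσT, hσs, hσsum⟩ := enum hT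
      obtain ⟨τ, hτ⟩ : ∃ τ : Equiv.Perm (Fin 9), Monotone ((fun i => v.2 (σ0 i)) ∘ τ) :=
        ⟨Tuple.sort _, Tuple.monotone_sort _⟩
      obtain ⟨σ, hσd⟩ : ∃ σ : Fin 9 → Fin n, σ = fun i => σ0 (τ i) := ⟨_, rfl⟩
      have hσ : Function.Injective σ := by
        rw [hσd]
        exact hσ0.comp τ.injective
      have hmono : Monotone fun i => v.2 (σ i) := by
        rw [hσd]
        exact hτ
      have hsum : ∑ i, v.2 (σ i) = ∑ j ∈ T, v.2 j := by
        rw [hσd, ← hσsum]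
        exact Equiv.sum_comp τ fun i => v.2 (σ0 i)
      have hsurj : ∀ j ∈ T, ∃ i, σ i = j := by
        intro j hj
        obtain ⟨i, hi⟩ := hσs j hj
        refine ⟨τ.symm i, ?_⟩
        rw [hσd]
        simp [hi]
      have hmem : ∀ i, σ i ∈ T := by
        intro i
        rw [hσd]
        exact hσT _
      have h0 : 0 ≤ v.1 - v.2 (σ 6) - v.2 (σ 7) - v.2 (σ 8) := by
        have h1 := hst (fun a => σ (![6, 7, 8] a)) (hσ.comp (by decide)) (fun a => hmem _)
        exact h1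
      have h := nine (D := v.1) (W := fun i => v.2 (σ i)) (by linarith : 0 < -dot v v) hmono h0
        (hg.spts hσ) (hg.sline hσ)
      rw [hsum, ← dot_cub] at h
      refine h.imp id fun h3 => ⟨h3.2, ?_⟩
      obtain ⟨h4, -⟩ := h3
      have hy : dot (cub T) v = v.2 (σ 1) - v.2 (σ 0) := by
        rw [dot_cub, ← hsum]
        simp only [Fin.sum_univ_succ]
        have e1 := h4 1 (by decide)
        have e2 := h4 2 (by decide)
        have e3 := h4 3 (by decide)
        have e4 := h4 4 (by decide)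
        have e5 := h4 5 (by decide)
        have e6 := h4 6 (by decide)
        have e7 := h4 7 (by decide)
        have e8 := h4 8 (by decide)
        simp at e1 e2 e3 e4 e5 e6 e7 e8 ⊢
        linarith
      have hval : ∀ i, i ≠ 0 → v.2 (σ i) = v.2 (σ 1) := by
        intro i hi
        have e1 := h4 i hi
        have e2 := h4 1 (by decide)
        linarith
      have hD : v.1 = 3 * v.2 (σ 1) := h4 1 (by decide)
      refine ⟨fun j hj => ?_, fun j hj j' hj' => ?_⟩
      · obtain ⟨i, rfl⟩ := hsurj j hj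
        by_cases hi : i = 0
        · refine ⟨3, ?_⟩
          rw [hi, hy, hD]
          push_cast
          ring
        · refine ⟨0, ?_⟩
          rw [hval i hi, hD]
          push_cast
          ring
      · obtain ⟨i, rfl⟩ := hsurj j hj
        obtain ⟨i', rfl⟩ := hsurj j' hj'
        by_cases hi : i = 0
        · by_cases hi' : i' = 0
          · refine ⟨0, ?_⟩
            rw [hi, hi']
            push_cast
            ring
          · refine ⟨-1, ?_⟩
            rw [hi, hval i' hi', hy]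
            push_cast
            ring
        · by_cases hi' : i' = 0
          · refine ⟨1, ?_⟩
            rw [hi', hval i hi, hy]
            push_cast
            ring
          · refine ⟨0, ?_⟩
            rw [hval i hi, hval i' hi']
            push_cast
            ring

end Pool.Agent.H902
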