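import Pool.Agent.H902.Fib
import Pool.Graph.R_pool_sql_team_seeded_c8625f6e.Results.MP_309968_ag.TenthCoefficient

set_option autoImplicit false

/-!
# Very general points, forms and irreducible curves
-/

namespace Pool.Agent.H902

open MvPolynomial Pool.Agent.W609 Pool.Agent.W609.CR Pool.Agent.TH167 Pool.Agent.TH167.SH
  Pool.Agent.X157.W
open Pool.Agent.H350R3 Pool.Agent.H350R3.GR
open Pool.Agent.Q78.FO (cyc mem_Vd' lift_Lw)
open Pool.Agent.Q78.GW (Lw mem_Lw)
open Pool.Agent.H932R5 (Vd deh hI mem_pt_pow_iff)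
open Pool.Agent.Results.MP_309968_ag.TenthCoefficient (mult_iff1)

theorem exists_avoid_fin : ∀ (N : ℕ) (f : ℕ → MvPolynomial (Fin N) ℂ), (∀ k, f k ≠ 0) →
    ∃ x : Fin N → ℂ, ∀ k, eval x (f k) ≠ 0 := by
  intro N
  induction N with
  | zero =>
    intro f hf
    refine ⟨fun i => i.elim0, fun k h => hf k ?_⟩
    have h1 := eq_C_of_isEmpty (f k)
    rw [h1, eval_C] at h
    rw [h1, h, C_0]
  | succ N ih =>
    intro f hf
    have hne : ∀ k, finSuccEquiv ℂ N (f k) ≠ 0 := fun k h =>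
      hf k ((finSuccEquiv ℂ N).injective (h.trans (map_zero _).symm))
    obtain ⟨x, hx⟩ := ih (fun k => (finSuccEquiv ℂ N (f k)).leadingCoeff)
      fun k => Polynomial.leadingCoeff_ne_zero.2 (hne k)
    have hp : ∀ k, Polynomial.map (eval x) (finSuccEquiv ℂ N (f k)) ≠ 0 := by
      intro k h
      have h1 := congrArg (fun p => Polynomial.coeff p (finSuccEquiv ℂ N (f k)).natDegree) h
      simp only [Polynomial.coeff_map, Polynomial.coeff_zero] at h1
      exact hx k h1
    have hc : (⋃ k, {y : ℂ | Polynomial.IsRoot (Polynomial.map (eval x)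
        (finSuccEquiv ℂ N (f k))) y}).Countable := by
      refine Set.countable_iUnion fun k => ?_
      exact (Polynomial.finite_setOfPred_isRoot (hp k)).countable
    obtain ⟨y, hy⟩ : ∃ y : ℂ, y ∉ ⋃ k, {y : ℂ | Polynomial.IsRoot (Polynomial.map (eval x)
        (finSuccEquiv ℂ N (f k))) y} := by
      by_contra hcon
      push Not at hcon
      exact not_countable_complex (hc.mono fun y _ => hcon y)
    refine ⟨Fin.cons y x, fun k h => hy ?_⟩
    rw [Set.mem_iUnion]
    refine ⟨k, ?_⟩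
    show Polynomial.IsRoot _ y
    rw [Polynomial.IsRoot, ← eval_eq_eval_mv_eval']
    exact h

theorem exists_vg {n : ℕ} (f : ℕ → MvPolynomial (Fin n × Fin 2) ℂ) (hf : ∀ k, f k ≠ 0) :
    ∃ P : Fin n → Fin 2 → ℂ, Gen P ∧
      ∀ k, eval (fun q : Fin n × Fin 2 => P q.1 q.2) (f k) ≠ 0 := by
  obtain ⟨g, hg, hgen⟩ := exists_fam (Fin n × Fin 2)
  obtain ⟨x, hx⟩ := exists_avoid_fin (n * 2)
    (fun k => rename finProdFinEquiv (f k * g k)) fun k h => by
      have h1 := rename_injective _ finProdFinEquiv.injective (h.trans (map_zero _).symm)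
      rcases mul_eq_zero.1 h1 with h2 | h2
      · exact hf k h2
      · exact hg k h2
  have hx' : ∀ k, eval (fun q : Fin n × Fin 2 => x (finProdFinEquiv q)) (f k) ≠ 0 ∧
      eval (fun q : Fin n × Fin 2 => x (finProdFinEquiv q)) (g k) ≠ 0 := by
    intro k
    have h1 := hx k
    rw [eval_rename, map_mul] at h1
    exact ⟨left_ne_zero_of_mul h1, right_ne_zero_of_mul h1⟩
  refine ⟨fun i j => x (finProdFinEquiv (i, j)), ?_, fun k => (hx' k).1⟩
  exact (hgen fun q : Fin n × Fin 2 => x (finProdFinEquiv q)).1 fun k => (hx' k).2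

/-! ## The two descriptions of curves -/

theorem classes_eq {n : ℕ} (P : Fin n → Fin 2 → ℂ) :
    Pool.Agent.R355.ConeAct.curveClasses P =
      Pool.Agent.Results.MP_309968_ag.BoundaryRays.curveClasses P := by
  unfold Pool.Agent.R355.ConeAct.curveClasses
    Pool.Agent.Results.MP_309968_ag.BoundaryRays.curveClasses
  congr 1
  ext v
  constructor
  · rintro ⟨G, d, w, hG, rfl⟩
    obtain ⟨g1, g2, g3⟩ := curve_iff.1 hG
    exact ⟨G, d, w, g2, g1, fun i => ⟨(mult_iff1 g2 _).2 (g3 i).1,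
      fun h => (g3 i).2 ((mult_iff1 g2 _).1 h)⟩, rfl⟩
  · rintro ⟨G, d, w, g2, g1, g3, rfl⟩
    exact ⟨G, d, w, curve_iff.2 ⟨g1, g2, fun i => ⟨(mult_iff1 g2 _).1 (g3 i).1,
      fun h => (g3 i).2 ((mult_iff1 g2 _).2 h)⟩⟩, rfl⟩

theorem cone_eq {n : ℕ} (P : Fin n → Fin 2 → ℂ) :
    Pool.Agent.R355.ConeAct.curvCone P =
      Pool.Agent.Results.MP_309968_ag.BoundaryRays.curvCone P := by
  unfold Pool.Agent.R355.ConeAct.curvCone Pool.Agent.Results.MP_309968_ag.BoundaryRays.curvCone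
  rw [classes_eq]

/-! ## From irreducible curves to all polynomials -/

theorem nf_of_curves {k : ℕ} {t : Fin k → ℝ} {c : ℝ} (ht : ∀ i, 0 ≤ t i)
    {P : Fin k → Fin 2 → ℂ}
    (h : ∀ (G : MvPolynomial (Fin 3) ℂ) (d : ℕ) (w : Fin k → ℕ), SHDefs.Curve P G d w →
      ∑ i, t i * (w i : ℝ) ≤ c * d) : NB.Nf ℂ t c := by
  intro w d hd
  refine ⟨P, fun f hf hfd => ?_⟩
  by_contra hf0
  have hfL : f ∈ Lw (E := 1) d P w := by
    rw [mem_Lw]
    refine ⟨fun α hα => ?_, fun i => mem_pt_pow_iff.1 (hf i)⟩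
    by_contra h1
    exact absurd (hfd α h1) (not_le.2 hα)
  obtain ⟨R, hR, hRf⟩ := lift_Lw hfL
  have hRh := (mem_Vd'.1 hR).1
  have hR0 : R ≠ 0 := by
    rintro rfl
    rw [map_zero] at hRf
    exact hf0 hRf.symm
  have hinj' : Function.Injective (rename (R := ℂ) cyc.symm) :=
    rename_injective _ cyc.symm.injective
  have h1 := Pool.Agent.K4H28.TC.form_of_irr (p := P) (x := t) (c := c) ht
    (fun G e u g1 g2 g3 => h G e u (curve_iff.2 ⟨g1, g2, g3⟩)) (rename cyc.symm R)
    (fun h0 => hR0 (hinj' (h0.trans (map_zero _).symm))) d w hRh.rename_isHomogeneous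
    (fun i => by
      refine (t_link ℂ (P i) (w i) _ d hRh.rename_isHomogeneous).2 ?_
      refine rename_pt' ?_
      have h3 := hR
      unfold Vd at h3
      rw [Submodule.mem_inf, Submodule.restrictScalars_mem, Ideal.mem_iInf] at h3
      exact h3.2 i)
  linarith

end Pool.Agent.H902
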